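import Mathlib

/-!
# Zonotope signing (almost signs in the Komlos problem, any dimension): definitions

`P` is the matrix of an orthogonal projection on `ι → ℝ`; `V` is the set of the signed coordinates.
-/

namespace Pool.Agent.Helper38.ZS

open Finset
open scoped Classical

noncomputable section

variable {ι : Type} [Fintype ι]

/-- orthogonal projection matrix -/
structure IsPr (P : ι → ι → ℝ) : Prop where
  symm : ∀ i j, P i j = P j i
  idem : ∀ i j, ∑ k, P i k * P k j = P i j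

/-- the matrix applied to a vector -/
def ap (P : ι → ι → ℝ) (x : ι → ℝ) (i : ι) : ℝ := ∑ k, P i k * x k

omit [Fintype ι] in
/-- restriction of a vector to a set -/
def rs (X : Finset ι) (g : ι → ℝ) (i : ι) : ℝ := if i ∈ X then g i else 0

omit [Fintype ι] in
/-- the weight of a set -/
def nu (g : ι → ℝ) (X : Finset ι) : ℝ := ∑ i ∈ X, |g i| ^ (19 / 20 : ℝ)

omit [Fintype ι] in
/-- the `l1` norm on a set -/
def l1 (g : ι → ℝ) (X : Finset ι) : ℝ := ∑ i ∈ X, |g i|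

omit [Fintype ι] in
/-- interaction of two sets -/
def II (P : ι → ι → ℝ) (g : ι → ℝ) (X Y : Finset ι) : ℝ := ∑ i ∈ X, ∑ j ∈ Y, g i * P i j * g j

/-- defect of a set: squared distance of the restriction to the range of the projection -/
def DD (P : ι → ι → ℝ) (g : ι → ℝ) (X : Finset ι) : ℝ := ∑ i, (rs X g i - ap P (rs X g) i) ^ 2

/-- weak linking -/
def Link (P : ι → ι → ℝ) (κ : ℝ) (Z : Finset ι) (g : ι → ℝ) : Prop :=
  ∀ X ⊆ Z, X.Nonempty → X ≠ Z →
    κ * (min (nu g X) (nu g (Z \ X))) ^ (19 / 20 : ℝ) ≤ II P g X (Z \ X)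

/-- a piece of size `m` -/
structure Piece (P : ι → ι → ℝ) (γ κ C m : ℝ) (Z : Finset ι) (g : ι → ℝ) : Prop where
  low : ∀ i ∈ Z, γ ≤ |g i|
  link : Link P κ Z g
  nub : nu g Z ≤ C * m
  nul : m ≤ 2 * nu g Z
  dfb : DD P g Z ≤ m

/-! ## the graph -/

omit [Fintype ι] in
/-- neighbours at threshold `exp (-K)` -/
def Adj (P : ι → ι → ℝ) (K : ℝ) (i j : ι) : Prop := Real.exp (-K) ≤ |P i j|

omit [Fintype ι] in
/-- outer boundary of `B` in `Z` -/
def bd (P : ι → ι → ℝ) (K : ℝ) (Z B : Finset ι) : Finset ι :=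
  (Z \ B).filter (fun l => ∃ k ∈ B, Adj P K l k)

omit [Fintype ι] in
/-- one step of growth -/
def grow (P : ι → ι → ℝ) (K : ℝ) (Z B : Finset ι) : Finset ι := B ∪ bd P K Z B

omit [Fintype ι] in
/-- the ball of radius `r` about `s` in `Z` -/
def ball (P : ι → ι → ℝ) (K : ℝ) (Z : Finset ι) (s : ι) (r : ℕ) : Finset ι :=
  (grow P K Z)^[r] {s}

/-- absolute interaction of `B` with its boundary -/
def near (P : ι → ι → ℝ) (K : ℝ) (Z : Finset ι) (g : ι → ℝ) (B : Finset ι) : ℝ :=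
  ∑ l ∈ bd P K Z B, |g l| * |ap P (rs B g) l|

omit [Fintype ι] in
/-- every part of `W` without a point of `Q` is joined to the rest of `W` -/
def Rooted (R : ι → ι → Prop) (Q W : Finset ι) : Prop :=
  ∀ A ⊆ W, A.Nonempty → Disjoint A Q → ∃ a ∈ A, ∃ b ∈ W, b ∉ A ∧ R a b

/-- visible points of the sample `z` (rate `exp (-K / 8)`) -/
def vis (P : ι → ι → ℝ) (K : ℝ) (z : ι → ℤ) : Finset ι :=
  univ.filter (fun v => Real.exp (-(K / 2)) ≤ |ap P (fun k => Real.exp (K / 8) * (z k : ℝ)) v|)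

/-- cost of an integer vector -/
def lc (z : ι → ℤ) : ℝ := ∑ k, Real.log (1 + |(z k : ℝ)|)

/-- the sample `z` detects the set `B` -/
def Det (P : ι → ι → ℝ) (K : ℝ) (z : ι → ℤ) (B : Finset ι) : Prop :=
  ∃ k ∈ B, z k ≠ 0 ∨ k ∈ vis P K z

/-- sets which must be detected: heavy sets and slow sets -/
def Detectable (P : ι → ι → ℝ) (K : ℝ) (Z : Finset ι) (g : ι → ℝ) (B : Finset ι) : Prop :=
  Real.exp (K / 8) ≤ l1 g B ∨ near P K Z g B ≤ II P g B (Z \ B) / 8

/-- truncation at height `c` -/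
def cl (c x : ℝ) : ℝ := max (-c) (min x c)

/-- the smooth cut off: `0` on `[-1,1]`, slope one on `1 ≤ |x| ≤ 2`, then constant `±1` -/
def TT (x : ℝ) : ℝ := cl 2 x - cl 1 x

/-- possible sample sets of level `K` of the pieces of size `m` containing `k` -/
def SK (P : ι → ι → ℝ) (γ κ C m K : ℝ) (k : ι) : Finset (Finset ι) :=
  univ.filter (fun S => ∃ (Z : Finset ι) (g : ι → ℝ), Piece P γ κ C m Z g ∧ k ∈ Z ∧ S ⊆ Z ∧
    (#S : ℝ) ≤ m / K ^ 100)

/-- possible final samples of the pieces of size `m` -/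
def IsZ (P : ι → ι → ℝ) (γ κ C m K : ℝ) (z : ι → ℤ) : Prop :=
  ∃ (Z : Finset ι) (g : ι → ℝ), Piece P γ κ C m Z g ∧ (∀ k, k ∉ Z → z k = 0) ∧
    lc z ≤ m / (2 * K ^ 100)

/-- the reconstructed field -/
def fd (P : ι → ι → ℝ) (K : ℝ) (z : ι → ℤ) (v : ι) : ℝ := ap P (fun k => K ^ 200 * (z k : ℝ)) v

end

end Pool.Agent.Helper38.ZS
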