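import Pool.Agent.Helper38.ZS.Defs

/-!
# Zonotope signing: statements of the modules
-/

namespace Pool.Agent.Helper38.ZS

open Finset
open scoped Classical

noncomputable section

/-- 1. level selection -/
def ST_LEVEL : Prop :=
  ∃ C0 : ℝ, 1 ≤ C0 ∧ ∀ (ι : Type) [Fintype ι] (V : Finset ι) (f ξ : ι → ℝ) (β L : ℝ),
    0 < β → β ≤ 1 → 1 ≤ L → (∀ i ∈ V, |ξ i| ≤ 1) →
    β * l1 f V + L * l1 f Vᶜ < ∑ i ∈ V, ξ i * f i →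
    ∃ s : ℝ, 0 < s ∧ 0 < ∑ i ∈ V, |TT (s * f i)| ∧
      β / 2 * ∑ i ∈ V, |TT (s * f i)| < ∑ i ∈ V, ξ i * TT (s * f i) ∧
      ∀ h : ℤ, (2 : ℝ) ^ h * (β * (#(V.filter (fun i => (2 : ℝ) ^ (h + 1) ≤ |s * f i|)) : ℝ)
          + L * (#(Vᶜ.filter (fun i => (2 : ℝ) ^ (h + 1) ≤ |s * f i|)) : ℝ))
        ≤ C0 * (2 : ℝ) ^ (|(h : ℝ)| / 40) * ∑ i ∈ V, |TT (s * f i)|

/-- 2. sums over a profile -/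
def ST_PROF : Prop :=
  ∃ C0 : ℝ, 1 ≤ C0 ∧ ∀ (ι : Type) [Fintype ι] (X : Finset ι) (g : ι → ℝ) (A γ : ℝ),
    0 ≤ A → 0 < γ → γ ≤ 1 →
    (∀ h : ℤ, (2 : ℝ) ^ h * (#(X.filter (fun i => (2 : ℝ) ^ (h + 1) ≤ |g i|)) : ℝ)
      ≤ A * (2 : ℝ) ^ (|(h : ℝ)| / 40)) →
    nu g (X.filter (fun i => γ ≤ |g i|)) ≤ C0 / γ * A ∧
    ∑ i ∈ X.filter (fun i => |g i| < γ), g i ^ 2 ≤ C0 * Real.sqrt γ * A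

/-- 3. the minimal partition -/
def ST_PART : Prop :=
  ∀ (ι : Type) [Fintype ι] (P : ι → ι → ℝ) (g : ι → ℝ) (G : Finset ι) (γ κ : ℝ),
    IsPr P → 0 < γ → γ ≤ 1 → 0 < κ → (∀ i ∈ G, γ ≤ |g i|) →
    ∃ Q : Finset (Finset ι), (∀ Z ∈ Q, Z.Nonempty) ∧ (∀ Z ∈ Q, ∀ Y ∈ Q, Z ≠ Y → Disjoint Z Y) ∧
      Q.biUnion id = G ∧ (∀ Z ∈ Q, Link P κ Z g) ∧
      ∑ Z ∈ Q, DD P g Z ≤ DD P g G + 40 * κ / γ * nu g G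

/-- 4. a bad vector has a bad piece -/
def ST_PIECE : Prop :=
  ∀ β : ℝ, 0 < β → β ≤ 1 → ∃ C1 : ℝ, 1 ≤ C1 ∧ ∀ ε : ℝ, 0 < ε → ε ≤ 1 →
    ∃ γ κ C : ℝ, 0 < γ ∧ γ ≤ 1 ∧ 0 < κ ∧ κ ≤ 1 ∧ 1 ≤ C ∧
    ∀ (L : ℝ) (ι : Type) [Fintype ι] (P : ι → ι → ℝ) (V : Finset ι) (f ξ : ι → ℝ),
      1 ≤ L → IsPr P → ap P f = f → (∀ i ∈ V, |ξ i| ≤ 1) →
      β * l1 f V + L * l1 f Vᶜ < ∑ i ∈ V, ξ i * f i →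
      ∃ (g : ι → ℝ) (Z : Finset ι) (m : ℝ), m = ∑ i ∈ Z ∩ V, |TT (g i)| ∧ 0 < m ∧
        β / 4 * m < ∑ i ∈ Z ∩ V, ξ i * TT (g i) ∧ (∀ i ∈ Z, γ ≤ |g i|) ∧ Link P κ Z g ∧
        nu g Z ≤ C * m ∧ nu g (Z \ V) ≤ C / L * m ∧ DD P g Z ≤ ε * m ∧
        (#((Z ∩ V).filter (fun i => 1 / 2 ≤ |g i|)) : ℝ) ≤ C1 * m

/-- 5. pieces are large -/
def ST_BIG : Prop :=
  ∀ C M : ℝ, 1 ≤ C → 1 ≤ M → ∃ η : ℝ, 0 < η ∧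
    ∀ (ι : Type) [Fintype ι] (P : ι → ι → ℝ) (V Z : Finset ι) (g : ι → ℝ) (m : ℝ),
      IsPr P → (∀ i ∈ V, P i i ≤ η) → m = ∑ i ∈ Z ∩ V, |TT (g i)| → 0 < m → nu g Z ≤ C * m →
      DD P g Z ≤ m / 16 → M ≤ m

/-- 6. reconstruction from a sample -/
def ST_REC : Prop :=
  ∀ β C1 : ℝ, 0 < β → β ≤ 1 → 1 ≤ C1 → ∃ ε : ℝ, 0 < ε ∧ ε ≤ 1 / 16 ∧
    ∀ γ C : ℝ, 0 < γ → γ ≤ 1 → 1 ≤ C → ∃ K0 : ℝ, ∀ K : ℝ, K0 ≤ K →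
    ∃ η L : ℝ, 0 < η ∧ 1 ≤ L ∧
    ∀ (ι : Type) [Fintype ι] (P : ι → ι → ℝ) (V Z : Finset ι) (g ξ : ι → ℝ) (m : ℝ),
      IsPr P → (∀ i ∈ V, P i i ≤ η) → (∀ i ∈ V, |ξ i| ≤ 1) →
      m = ∑ i ∈ Z ∩ V, |TT (g i)| → 0 < m →
      β / 4 * m < ∑ i ∈ Z ∩ V, ξ i * TT (g i) → (∀ i ∈ Z, γ ≤ |g i|) →
      nu g Z ≤ C * m → nu g (Z \ V) ≤ C / L * m → DD P g Z ≤ ε * m →
      (#((Z ∩ V).filter (fun i => 1 / 2 ≤ |g i|)) : ℝ) ≤ C1 * m →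
      ∃ z : ι → ℤ, (∀ k, k ∉ Z → z k = 0) ∧ lc z ≤ m / (4 * K ^ 100) ∧
        (#(V.filter (fun v => 1 < |fd P K z v|)) : ℝ) ≤ 2 * C1 * m ∧
        ∑ v ∈ V, |TT (fd P K z v)| ≤ 2 * m ∧
        β / 8 * m < ∑ v ∈ V, ξ v * TT (fd P K z v)

/-- 7. one sample detects one in 64 of the sets -/
def ST_SAMPLE : Prop :=
  ∀ γ κ C : ℝ, 0 < γ → γ ≤ 1 → 0 < κ → κ ≤ 1 → 1 ≤ C → ∃ K0 : ℝ, ∀ K : ℝ, K0 ≤ K →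
    ∀ (ι : Type) [Fintype ι] (P : ι → ι → ℝ) (Z : Finset ι) (g : ι → ℝ) (m : ℝ),
      IsPr P → 1 ≤ m → Piece P γ κ C m Z g →
      ∀ (J : Type) (F : Finset J) (B : J → Finset ι),
        (∀ j ∈ F, B j ⊆ Z ∧ (Real.exp (K / 8) ≤ l1 g (B j) ∨
          (l1 g (B j) < Real.exp (K / 8) ∧ κ * γ ≤ II P g (B j) (Z \ B j) ∧
            near P K Z g (B j) ≤ II P g (B j) (Z \ B j) / 8))) →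
        ∃ z : ι → ℤ, (∀ k, k ∉ Z → z k = 0) ∧ lc z ≤ m * Real.exp (-(K / 9)) ∧
          (#(vis P K z) : ℝ) ≤ m * Real.exp (3 * K / 2) ∧
          (#(F.filter (fun j => ¬ Det P K z (B j))) : ℝ) ≤ 63 / 64 * (#F : ℝ)

/-- 8. the samples of one level -/
def ST_SAMPLES : Prop :=
  ∀ γ κ C : ℝ, 0 < γ → γ ≤ 1 → 0 < κ → κ ≤ 1 → 1 ≤ C → ∃ K0 : ℝ, ∀ K : ℝ, K0 ≤ K →
    ∀ (ι : Type) [Fintype ι] (P : ι → ι → ℝ) (Z S : Finset ι) (g : ι → ℝ) (m : ℝ),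
      IsPr P → 1 ≤ m → Piece P γ κ C m Z g → K < 3 * Real.log m → S ⊆ Z →
      (#S : ℝ) ≤ m / K ^ 100 →
      ∃ (z : Fin ⌈64 * K⌉₊ → ι → ℤ) (S' : Finset ι), S' ⊆ Z ∧ (∀ i k, z i k ≠ 0 → k ∈ S') ∧
        (#S' : ℝ) ≤ m * Real.exp (-(K / 16)) ∧ ∑ i, lc (z i) ≤ m * Real.exp (-(K / 16)) ∧
        (∀ i, (#(vis P K (z i)) : ℝ) ≤ m * Real.exp (3 * K / 2)) ∧
        ∀ s ∈ S, ∀ r : ℕ,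
          Disjoint (ball P K Z s r) (S' ∪ univ.biUnion (fun i => vis P K (z i))) →
          ¬ Detectable P K Z g (ball P K Z s r)

/-- 9. packing of balls -/
def ST_PACK : Prop :=
  ∀ γ κ C : ℝ, 0 < γ → γ ≤ 1 → 0 < κ → κ ≤ 1 → 1 ≤ C → ∃ (C2 : ℝ) (R0 : ℕ), 1 ≤ C2 ∧ 1 ≤ R0 ∧
    ∀ (ι : Type) [Fintype ι] (P : ι → ι → ℝ) (K : ℝ) (Z A : Finset ι) (g : ι → ℝ) (m : ℝ) (R : ℕ),
      IsPr P → 1 ≤ m → Piece P γ κ C m Z g → R0 ≤ R → A ⊆ Z →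
      (∀ a ∈ A, ∀ b ∈ A, a ≠ b → Disjoint (ball P K Z a R) (ball P K Z b R)) →
      (∀ a ∈ A, ∀ r < R, κ * (nu g (ball P K Z a r)) ^ (19 / 20 : ℝ)
          ≤ II P g (ball P K Z a r) (Z \ ball P K Z a r) ∧
        II P g (ball P K Z a r) (Z \ ball P K Z a r) / 8 < near P K Z g (ball P K Z a r)) →
      (#A : ℝ) ≤ C2 * m * (R : ℝ) ^ (-(21 / 20 : ℝ))

/-- 10. greedy forests -/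
def ST_GREEDY : Prop :=
  ∀ (ι : Type) [Fintype ι] (P : ι → ι → ℝ) (K : ℝ) (Z S T : Finset ι) (c : ℝ) (R0 : ℕ),
    (∀ i j, P i j = P j i) → 1 ≤ R0 → 0 ≤ c → S ⊆ Z →
    (∀ s ∈ S, ∃ r : ℕ, ¬ Disjoint (ball P K Z s r) T) →
    (∀ (R : ℕ) (A : Finset ι), R0 ≤ R → A ⊆ S →
      (∀ a ∈ A, ∀ b ∈ A, a ≠ b → Disjoint (ball P K Z a R) (ball P K Z b R)) →
      (∀ a ∈ A, Disjoint (ball P K Z a (2 * R)) T) →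
      (#A : ℝ) ≤ c * (R : ℝ) ^ (-(21 / 20 : ℝ))) →
    ∃ W : Finset ι, S ⊆ W ∧ W ⊆ Z ∧ Rooted (Adj P K) T W ∧
      (#W : ℝ) ≤ (#S : ℝ) * (2 * R0 + 2) + 100 * c * (R0 : ℝ) ^ (-(1 / 20 : ℝ))

/-- 11. one step down the tower -/
def ST_STEP : Prop :=
  ∀ γ κ C : ℝ, 0 < γ → γ ≤ 1 → 0 < κ → κ ≤ 1 → 1 ≤ C → ∃ K0 : ℝ, ∀ K : ℝ, K0 ≤ K →
    ∀ (ι : Type) [Fintype ι] (P : ι → ι → ℝ) (Z S : Finset ι) (g : ι → ℝ) (m : ℝ),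
      IsPr P → 1 ≤ m → Piece P γ κ C m Z g → K < 3 * Real.log m → S ⊆ Z →
      (#S : ℝ) ≤ m / K ^ 100 →
      ∃ (z : Fin ⌈64 * K⌉₊ → ι → ℤ) (S' W : Finset ι), S' ⊆ Z ∧ (∀ i k, z i k ≠ 0 → k ∈ S') ∧
        (#S' : ℝ) ≤ m * Real.exp (-(K / 16)) ∧ ∑ i, lc (z i) ≤ m * Real.exp (-(K / 16)) ∧
        (#(S' ∪ univ.biUnion (fun i => vis P K (z i))) : ℝ) ≤ m * Real.exp (2 * K) ∧
        S ⊆ W ∧ (#W : ℝ) ≤ m / K ^ 4 ∧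
        Rooted (Adj P K) (S' ∪ univ.biUnion (fun i => vis P K (z i))) W

/-- 12. the top of the tower -/
def ST_TOP : Prop :=
  ∀ γ κ C : ℝ, 0 < γ → γ ≤ 1 → 0 < κ → κ ≤ 1 → 1 ≤ C → ∃ K0 : ℝ, ∀ K : ℝ, K0 ≤ K →
    ∀ (ι : Type) [Fintype ι] (P : ι → ι → ℝ) (Z S : Finset ι) (g : ι → ℝ) (m : ℝ) (k : ι),
      IsPr P → 1 ≤ m → Piece P γ κ C m Z g → 3 * Real.log m ≤ K → S ⊆ Z → k ∈ Z →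
      (#S : ℝ) ≤ m / K ^ 100 →
      ∃ W : Finset ι, S ⊆ W ∧ (#W : ℝ) ≤ m / K ^ 4 ∧ Rooted (Adj P K) {k} W

/-- 13. counting rooted sets (site percolation) -/
def ST_PERC : Prop :=
  ∀ (ι : Type) [Fintype ι] (R : ι → ι → Prop) (Q : Finset ι) (D : ℕ) (p : ℝ),
    (∀ b, #(univ.filter (fun a => R a b)) ≤ D) → 0 ≤ p → p ≤ 1 →
    ∑ W ∈ univ.filter (fun W : Finset ι => Rooted R Q W),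
      p ^ (#W) * (1 - p) ^ (D * #W + #Q) ≤ 1

/-- 14. counting integer vectors -/
def ST_ZCNT : Prop :=
  ∀ (ι : Type) [Fintype ι] (S : Finset ι) (B : ℝ) (F : Finset (ι → ℤ)),
    (∀ z ∈ F, (∀ k, k ∉ S → z k = 0) ∧ lc z ≤ B) →
    (#F : ℝ) ≤ 4 ^ (#S) * Real.exp (3 * B)

/-- 15. counting subsets of small rooted sets -/
def ST_SUB : Prop :=
  ∃ K0 : ℝ, ∀ K : ℝ, K0 ≤ K → ∀ (ι : Type) [Fintype ι] (P : ι → ι → ℝ) (Q : Finset ι)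
    (N M : ℝ) (F : Finset (Finset ι)),
    IsPr P → 0 ≤ N → (#Q : ℝ) ≤ M * Real.exp (2 * K) →
    (∀ S ∈ F, ∃ W : Finset ι, S ⊆ W ∧ (#W : ℝ) ≤ N ∧ Rooted (Adj P K) Q W) →
    (#F : ℝ) ≤ Real.exp (4 * K * N + 2 * M * Real.exp (-K))

/-- 16. the number of sample sets -/
def ST_COUNT : Prop :=
  ∀ γ κ C : ℝ, 0 < γ → γ ≤ 1 → 0 < κ → κ ≤ 1 → 1 ≤ C → ∃ K0 : ℝ, ∀ K : ℝ, K0 ≤ K →
    ∀ (ι : Type) [Fintype ι] (P : ι → ι → ℝ) (m : ℝ) (k : ι),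
      IsPr P → 1 ≤ m → (#(SK P γ κ C m K k) : ℝ) ≤ Real.exp (20 * m / K ^ 2)

/-- 17. the number of samples visible at `v` -/
def ST_ZC : Prop :=
  ∀ γ κ C : ℝ, 0 < γ → γ ≤ 1 → 0 < κ → κ ≤ 1 → 1 ≤ C → ∃ K0 : ℝ, ∀ K : ℝ, K0 ≤ K →
    ∃ M : ℝ, 1 ≤ M ∧ ∀ (ι : Type) [Fintype ι] (P : ι → ι → ℝ) (m : ℝ) (v : ι)
      (F : Finset (ι → ℤ)), IsPr P → M ≤ m → (∀ z ∈ F, IsZ P γ κ C m K z ∧ 1 < |fd P K z v|) →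
      (#F : ℝ) ≤ Real.exp (25 * m / K ^ 2)

/-- 18. zonotope signing -/
def ST_SIGN : Prop :=
  ∀ β : ℝ, 0 < β → β ≤ 1 → ∃ η L : ℝ, 0 < η ∧ 1 ≤ L ∧
    ∀ (ι : Type) [Fintype ι] (P : ι → ι → ℝ) (V : Finset ι), IsPr P → (∀ i ∈ V, P i i ≤ η) →
      ∃ ξ : ι → ℝ, (∀ i, ξ i = 1 ∨ ξ i = -1) ∧
        ∀ f : ι → ℝ, ap P f = f → ∑ i ∈ V, ξ i * f i ≤ β * l1 f V + L * l1 f Vᶜ

/-- 19. almost signs in the Komlos problem -/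
def ST_MAIN : Prop :=
  ∀ β : ℝ, 0 < β → ∃ C : ℝ, ∀ (n m : ℕ) (A : Fin m → Fin n → ℝ), (∀ v, ∑ j, A j v ^ 2 ≤ 1) →
    ∃ x : Fin n → ℝ, (∀ v, |(|x v| - 1)| ≤ β) ∧ ∀ j, |∑ v, A j v * x v| ≤ C

end

end Pool.Agent.Helper38.ZS
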