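import Pool.Agent.Helper38.ZS.Stmts

/-!
# Counting rooted sets by site percolation
-/

namespace Pool.Agent.Helper38.ZS

open Finset
open scoped Classical

theorem sum_sub {ι : Type} [Fintype ι] (W N : Finset ι) (hd : Disjoint W N) (p : ℝ) :
    ∑ w ∈ (univ : Finset (Finset ι)).filter (fun w => W ⊆ w ∧ Disjoint w N),
      p ^ #w * (1 - p) ^ (Fintype.card ι - #w) = p ^ #W * (1 - p) ^ #N := by
  -- bijection with the subsets of the complement
  set U : Finset ι := (W ∪ N)ᶜ with hU
  have h1 : ∑ w ∈ (univ : Finset (Finset ι)).filter (fun w => W ⊆ w ∧ Disjoint w N),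
      p ^ #w * (1 - p) ^ (Fintype.card ι - #w)
      = ∑ u ∈ U.powerset, p ^ #(W ∪ u) * (1 - p) ^ (Fintype.card ι - #(W ∪ u)) := by
    refine Finset.sum_bij' (fun w _ => w \ W) (fun u _ => W ∪ u) ?_ ?_ ?_ ?_ ?_
    · intro w hw
      simp only [mem_filter, mem_univ, true_and] at hw
      rw [mem_powerset, hU]
      intro x hx
      rw [mem_sdiff] at hx
      rw [mem_compl, mem_union]
      rintro (h | h)
      · exact hx.2 h
      · exact (Finset.disjoint_left.1 hw.2 hx.1) h
    · intro u hu
      simp only [mem_filter, mem_univ, true_and]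
      rw [mem_powerset, hU] at hu
      refine ⟨subset_union_left, ?_⟩
      rw [Finset.disjoint_union_left]
      refine ⟨hd, ?_⟩
      rw [Finset.disjoint_left]
      intro x hx hxN
      have := hu hx
      rw [mem_compl, mem_union] at this
      exact this (Or.inr hxN)
    · intro w hw
      simp only [mem_filter, mem_univ, true_and] at hw
      exact Finset.union_sdiff_of_subset hw.1
    · intro u hu
      rw [mem_powerset, hU] at hu
      have : Disjoint u W := by
        rw [Finset.disjoint_left]
        intro x hx hxW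
        have := hu hx
        rw [mem_compl, mem_union] at this
        exact this (Or.inl hxW)
      show (W ∪ u) \ W = u
      rw [Finset.union_sdiff_left]
      exact Finset.sdiff_eq_self_of_disjoint this
    · intro w hw
      simp only [mem_filter, mem_univ, true_and] at hw
      rw [Finset.union_sdiff_of_subset hw.1]
  rw [h1]
  have hUc : #U = Fintype.card ι - (#W + #N) := by
    rw [hU, card_compl, card_union_of_disjoint hd]
  have hle : #W + #N ≤ Fintype.card ι := by
    rw [← card_union_of_disjoint hd]
    exact card_le_univ _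
  have h2 : ∑ u ∈ U.powerset, p ^ #(W ∪ u) * (1 - p) ^ (Fintype.card ι - #(W ∪ u))
      = ∑ u ∈ U.powerset, (p ^ #W * (1 - p) ^ #N) * (p ^ #u * (1 - p) ^ (#U - #u)) := by
    refine Finset.sum_congr rfl fun u hu => ?_
    have hsub := mem_powerset.1 hu
    have hdis : Disjoint W u := by
      rw [Finset.disjoint_left]
      intro x hxW hx
      have := hsub hx
      rw [hU, mem_compl, mem_union] at this
      exact this (Or.inl hxW)
    have hcu : #u ≤ #U := card_le_card hsub
    rw [card_union_of_disjoint hdis, pow_add]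
    have : Fintype.card ι - (#W + #u) = #N + (#U - #u) := by omega
    rw [this, pow_add]
    ring
  rw [h2, ← Finset.mul_sum]
  have h3 : ∑ u ∈ U.powerset, p ^ #u * (1 - p) ^ (#U - #u) = 1 := by
    rw [Finset.sum_pow_mul_eq_add_pow]
    simp
  rw [h3, mul_one]

theorem st_perc : ST_PERC := by
  intro ι _ R Q D p hD hp0 hp1
  set N : Finset ι → Finset ι := fun W =>
    (univ.filter (fun a => (∃ b ∈ W, R a b) ∨ a ∈ Q)) \ W with hN
  have hNcard : ∀ W : Finset ι, #(N W) ≤ D * #W + #Q := by
    intro W
    calc #(N W) ≤ #((W.biUnion (fun b => univ.filter (fun a => R a b))) ∪ Q) := by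
          apply card_le_card
          intro x hx
          simp only [hN, mem_sdiff, mem_filter, mem_univ, true_and] at hx
          rw [mem_union, mem_biUnion]
          rcases hx.1 with ⟨b, hb, h⟩ | h
          · exact Or.inl ⟨b, hb, by simp [h]⟩
          · exact Or.inr h
      _ ≤ #(W.biUnion (fun b => univ.filter (fun a => R a b))) + #Q := card_union_le _ _
      _ ≤ D * #W + #Q := by
          gcongr
          calc _ ≤ ∑ b ∈ W, #(univ.filter (fun a => R a b)) := card_biUnion_le
            _ ≤ ∑ b ∈ W, D := Finset.sum_le_sum fun b _ => hD b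
            _ = D * #W := by rw [Finset.sum_const, smul_eq_mul, mul_comm]
  have hp1' : 0 ≤ 1 - p := by linarith
  have hp1'' : 1 - p ≤ 1 := by linarith
  -- classes
  set cls : Finset ι → Finset (Finset ι) := fun W =>
    (univ : Finset (Finset ι)).filter (fun w => W ⊆ w ∧ Disjoint w (N W)) with hcls
  have hdisj : ∀ W W' : Finset ι, Rooted R Q W' → ∀ w, w ∈ cls W → w ∈ cls W' → W' ⊆ W := by
    intro W W' hW' w hw hw'
    simp only [hcls, mem_filter, mem_univ, true_and] at hw hw'
    by_contra hne
    have hAne : (W' \ W).Nonempty := by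
      rw [Finset.sdiff_nonempty]; exact hne
    have hAQ : Disjoint (W' \ W) Q := by
      rw [Finset.disjoint_left]
      intro x hx hxQ
      rw [mem_sdiff] at hx
      have h1 : x ∈ N W := by
        simp only [hN, mem_sdiff, mem_filter, mem_univ, true_and]
        exact ⟨Or.inr hxQ, hx.2⟩
      exact Finset.disjoint_left.1 hw.2 (hw'.1 hx.1) h1
    obtain ⟨a, ha, b, hb, hbA, hR⟩ := hW' (W' \ W) Finset.sdiff_subset hAne hAQ
    rw [mem_sdiff] at ha
    have hbW : b ∈ W := by
      by_contra h
      exact hbA (mem_sdiff.2 ⟨hb, h⟩)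
    have h1 : a ∈ N W := by
      simp only [hN, mem_sdiff, mem_filter, mem_univ, true_and]
      exact ⟨Or.inl ⟨b, hbW, hR⟩, ha.2⟩
    exact Finset.disjoint_left.1 hw.2 (hw'.1 ha.1) h1
  have h1 : ∑ W ∈ univ.filter (fun W : Finset ι => Rooted R Q W),
      p ^ (#W) * (1 - p) ^ (D * #W + #Q)
      ≤ ∑ W ∈ univ.filter (fun W : Finset ι => Rooted R Q W),
        ∑ w ∈ cls W, p ^ #w * (1 - p) ^ (Fintype.card ι - #w) := by
    refine Finset.sum_le_sum fun W _ => ?_
    rw [sum_sub W (N W) (by simp only [hN]; exact Finset.disjoint_sdiff) p]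
    exact mul_le_mul_of_nonneg_left (pow_le_pow_of_le_one hp1' hp1'' (hNcard W)) (by positivity)
  refine h1.trans ?_
  rw [← Finset.sum_biUnion]
  · calc _ ≤ ∑ w ∈ (univ : Finset (Finset ι)), p ^ #w * (1 - p) ^ (Fintype.card ι - #w) :=
          Finset.sum_le_sum_of_subset_of_nonneg (subset_univ _) fun w _ _ => by positivity
      _ = 1 := by
          have := Finset.sum_pow_mul_eq_add_pow p (1 - p) (univ : Finset ι)
          rw [Finset.powerset_univ, Finset.card_univ] at this
          rw [this]; simp
  · intro W hW W' hW' hne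
    rw [Function.onFun, Finset.disjoint_left]
    intro w hw hw'
    have e1 := (mem_filter.1 (Finset.mem_coe.1 hW)).2
    have e2 := (mem_filter.1 (Finset.mem_coe.1 hW')).2
    exact hne (Finset.Subset.antisymm (hdisj W' W e1 w hw' hw) (hdisj W W' e2 w hw hw'))

end Pool.Agent.Helper38.ZS
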