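import Pool.Agent.Helper38.ZS.Stmts
import Pool.Agent.Helper50.BL.Base
import Pool.Agent.Helper5.BL.LLL
import Pool.Agent.Helper5.BL.HOEF

/-!
# Zonotope signing: the local lemma
-/

namespace Pool.Agent.Helper38.ZS

open Finset
open scoped Classical
open Pool.Agent.Helper50.BL (Ex Pr IsW Dep)

theorem TT_zero {y : ℝ} (h : |y| ≤ 1) : TT y = 0 := by
  have := abs_le.1 h
  unfold TT cl
  rw [min_eq_left (by linarith), max_eq_right (by linarith), min_eq_left (by linarith),
    max_eq_right (by linarith)]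
  ring

theorem TT_abs (y : ℝ) : |TT y| ≤ 1 := by
  unfold TT cl
  rcases le_total y (-2) with h | h
  · rw [min_eq_left (by linarith), max_eq_left (by linarith), min_eq_left (by linarith),
      max_eq_left (by linarith)]
    rw [abs_le]; constructor <;> linarith
  rcases le_total y (-1) with h1 | h1
  · rw [min_eq_left (by linarith), max_eq_right (by linarith), min_eq_left (by linarith),
      max_eq_left (by linarith)]
    rw [abs_le]; constructor <;> linarith
  rcases le_total y 1 with h2 | h2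
  · rw [min_eq_left (by linarith), max_eq_right (by linarith), min_eq_left (by linarith),
      max_eq_right (by linarith)]
    rw [abs_le]; constructor <;> linarith
  rcases le_total y 2 with h3 | h3
  · rw [min_eq_left (by linarith), max_eq_right (by linarith), min_eq_right (by linarith),
      max_eq_right (by linarith)]
    rw [abs_le]; constructor <;> linarith
  · rw [min_eq_right (by linarith), max_eq_right (by linarith), min_eq_right (by linarith),
      max_eq_right (by linarith)]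
    rw [abs_le]; constructor <;> linarith

theorem one_le_of_TT_ne {y : ℝ} (h : TT y ≠ 0) : 1 < |y| := by
  by_contra h1
  exact h (TT_zero (not_lt.1 h1))

theorem TT_le_rpow (y : ℝ) : |TT y| ≤ |y| ^ (19 / 20 : ℝ) := by
  by_cases h : |y| ≤ 1
  · rw [TT_zero h, abs_zero]; positivity
  · push Not at h
    exact (TT_abs y).trans (Real.one_le_rpow h.le (by norm_num))

/-- the random signs -/
noncomputable def sg (b : Bool) : ℝ := if b then 1 else -1

noncomputable def muS (ι : Type) : ι → Bool → ℝ := fun _ _ => 1 / 2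

theorem isW_muS (ι : Type) : IsW (muS ι) := by
  constructor
  · intro v a; simp [muS]
  · intro v; simp [muS]

theorem hoef {ι : Type} [Fintype ι] (c : ι → ℝ) (s2 u : ℝ) (hs : ∑ v, (2 * |c v|) ^ 2 ≤ s2)
    (h0 : 0 < s2) (hu : 0 ≤ u) :
    Pr (muS ι) (fun w => u ≤ ∑ v, sg (w v) * c v) ≤ Real.exp (-(2 * u ^ 2 / s2)) := by
  refine Pool.Agent.Helper50.BL.st_HOEF ι Bool (muS ι) (isW_muS ι) (fun v a => sg a * c v)
    (fun v => -|c v|) (fun v => 2 * |c v|) s2 u ?_ ?_ hs h0 hu
  · intro v a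
    have h1 := neg_abs_le (c v)
    have h2 := le_abs_self (c v)
    rcases a with _ | _ <;> simp only [sg] <;> constructor <;> simp <;> linarith
  · intro v
    simp [muS, sg]

theorem sum_geo (q : ℝ) (hq0 : 0 ≤ q) (hq1 : q < 1) (M : ℕ) (T : Finset ℕ) (hT : ∀ n ∈ T, M ≤ n) :
    ∑ n ∈ T, q ^ n ≤ q ^ M / (1 - q) := by
  have h1 : ∑ n ∈ T, q ^ n ≤ ∑ n ∈ T.image (fun n => n - M), q ^ (M + n) := by
    rw [Finset.sum_image]
    · refine Finset.sum_le_sum fun n hn => ?_
      rw [Nat.add_sub_cancel' (hT n hn)]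
    · intro a ha b hb hab
      have h1 := hT a ha
      have h2 := hT b hb
      simp only at hab
      omega
  have h2 : ∑ n ∈ T.image (fun n => n - M), q ^ (M + n) ≤ ∑' n, q ^ (M + n) := by
    refine Summable.sum_le_tsum _ (fun n _ => by positivity) ?_
    simp_rw [pow_add]
    exact (summable_geometric_of_lt_one hq0 hq1).mul_left _
  have h3 : ∑' n, q ^ (M + n) = q ^ M / (1 - q) := by
    simp_rw [pow_add]
    rw [tsum_mul_left, tsum_geometric_of_lt_one hq0 hq1]
    rfl
  rw [← h3]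
  exact h1.trans h2

/-- the indices of the local lemma -/
def Ind {ι : Type} [Fintype ι] (P : ι → ι → ℝ) (V : Finset ι) (γ κ C C1 K : ℝ) (M : ℕ) : Type :=
  {p : ℕ × (ι → ℤ) // M ≤ p.1 ∧ IsZ P γ κ C p.1 K p.2 ∧
    (#(V.filter (fun v => 1 < |fd P K p.2 v|)) : ℝ) ≤ 2 * C1 * p.1 ∧
    ∑ v ∈ V, |TT (fd P K p.2 v)| ≤ 2 * p.1}

theorem lll_signs {ι : Type} [Fintype ι] (P : ι → ι → ℝ) (V : Finset ι) (γ κ C C1 K β : ℝ) (M : ℕ)
    (hC1 : 1 ≤ C1) (hβ : 0 < β) (hM : 1 ≤ M)
    (hcnt : ∀ (n : ℕ) (v : ι) (F : Finset (ι → ℤ)), M ≤ n →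
      (∀ z ∈ F, IsZ P γ κ C n K z ∧ 1 < |fd P K z v|) → (#F : ℝ) ≤ Real.exp (β ^ 2 / 8192 * n))
    (h2 : Real.exp (-(β ^ 2 / 2048 * M)) ≤ 1 / 2)
    (h3 : Real.exp (-(β ^ 2 / 4096)) ^ M / (1 - Real.exp (-(β ^ 2 / 4096)))
      ≤ β ^ 2 / (4096 * C1) / 2) :
    ∃ w : ι → Bool, ∀ p : Ind P V γ κ C C1 K M,
      ∑ v ∈ V, sg (w v) * TT (fd P K p.1.2 v) < β / 16 * p.1.1 := by
  set X : Ind P V γ κ C C1 K M → Finset ι := fun p => V.filter (fun v => 1 < |fd P K p.1.2 v|)
    with hX
  set Bad : Ind P V γ κ C C1 K M → (ι → Bool) → Prop := fun p w =>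
    β / 16 * p.1.1 ≤ ∑ v ∈ V, sg (w v) * TT (fd P K p.1.2 v) with hBad
  set x : Ind P V γ κ C C1 K M → ℝ := fun p => Real.exp (-(β ^ 2 / 2048 * p.1.1)) with hx
  have key := Pool.Agent.Helper50.BL.st_LLL ι Bool (muS ι) (isW_muS ι) (Ind P V γ κ C C1 K M) X Bad
    x (β ^ 2 / (4096 * C1)) ?_ ?_ ?_ ?_ ?_ ?_
  · obtain ⟨w, hw⟩ := key
    refine ⟨w, fun p => ?_⟩
    have := hw p
    simp only [hBad, not_le] at this
    exact this
  · -- dependence
    intro p w w' hww
    simp only [hBad]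
    have : ∑ v ∈ V, sg (w v) * TT (fd P K p.1.2 v) = ∑ v ∈ V, sg (w' v) * TT (fd P K p.1.2 v) := by
      refine Finset.sum_congr rfl fun v hv => ?_
      by_cases h : 1 < |fd P K p.1.2 v|
      · rw [hww v (by simp only [hX, mem_filter]; exact ⟨hv, h⟩)]
      · rw [TT_zero (not_lt.1 h)]; simp
    rw [this]
  · intro p; exact (Real.exp_pos _).le
  · intro p
    refine le_trans ?_ h2
    apply Real.exp_le_exp.2
    have h1 : (M : ℝ) ≤ p.1.1 := by exact_mod_cast p.2.1
    have h4 : 0 < β ^ 2 / 2048 := by positivity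
    nlinarith
  · positivity
  · -- probability
    intro p
    have hn : (1 : ℝ) ≤ p.1.1 := by
      have h1 : (M : ℝ) ≤ p.1.1 := by exact_mod_cast p.2.1
      have h4 : (1 : ℝ) ≤ M := by exact_mod_cast hM
      linarith
    have hs : ∑ v, (2 * |(if v ∈ V then TT (fd P K p.1.2 v) else 0)|) ^ 2 ≤ 8 * (p.1.1 : ℝ) := by
      have h1 : ∑ v, (2 * |(if v ∈ V then TT (fd P K p.1.2 v) else 0)|) ^ 2
          = ∑ v ∈ V, (2 * |TT (fd P K p.1.2 v)|) ^ 2 := by
        rw [← Finset.sum_filter_add_sum_filter_not univ (fun v => v ∈ V)]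
        rw [Finset.sum_eq_zero (s := univ.filter (fun v => ¬ v ∈ V))]
        · rw [add_zero, Finset.filter_mem_eq_inter, univ_inter]
          exact Finset.sum_congr rfl fun v hv => by simp [hv]
        · intro v hv
          simp only [mem_filter, mem_univ, true_and] at hv
          simp [hv]
      rw [h1]
      have h4 : ∑ v ∈ V, (2 * |TT (fd P K p.1.2 v)|) ^ 2 ≤ ∑ v ∈ V, 4 * |TT (fd P K p.1.2 v)| := by
        refine Finset.sum_le_sum fun v _ => ?_
        have := TT_abs (fd P K p.1.2 v)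
        have h0 := abs_nonneg (TT (fd P K p.1.2 v))
        nlinarith
      rw [← Finset.mul_sum] at h4
      have h5 := p.2.2.2.2
      linarith
    have hh := hoef (fun v => if v ∈ V then TT (fd P K p.1.2 v) else 0) (8 * (p.1.1 : ℝ))
      (β / 16 * p.1.1) hs (by linarith) (by positivity)
    have e1 : ∀ w : ι → Bool, ∑ v, sg (w v) * (if v ∈ V then TT (fd P K p.1.2 v) else 0)
        = ∑ v ∈ V, sg (w v) * TT (fd P K p.1.2 v) := by
      intro w
      simp only [mul_ite, mul_zero]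
      rw [Finset.sum_ite_mem]
      simp
    simp only [e1] at hh
    refine hh.trans ?_
    simp only [hx]
    rw [← Real.exp_add]
    apply Real.exp_le_exp.2
    have h5 := p.2.2.2.1
    have h6 : β ^ 2 / (4096 * C1) * (#(X p) : ℝ) ≤ β ^ 2 / 2048 * p.1.1 := by
      have h7 : β ^ 2 / (4096 * C1) * (#(X p) : ℝ) ≤ β ^ 2 / (4096 * C1) * (2 * C1 * p.1.1) :=
        mul_le_mul_of_nonneg_left h5 (by positivity)
      have h8 : β ^ 2 / (4096 * C1) * (2 * C1 * p.1.1) = β ^ 2 / 2048 * p.1.1 := by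
        field_simp; ring
      linarith
    have h9 : 2 * (β / 16 * (p.1.1 : ℝ)) ^ 2 / (8 * p.1.1) = β ^ 2 / 1024 * p.1.1 := by
      field_simp; ring
    rw [h9]
    linarith
  · -- sums
    intro v F
    set F' := F.filter (fun i => v ∈ X i) with hF'
    have h4 : ∑ i ∈ F', x i = ∑ n ∈ F'.image (fun i => i.1.1),
        ∑ i ∈ F'.filter (fun i => i.1.1 = n), x i := by
      rw [Finset.sum_image' (fun i => x i)]
      intro i _
      rfl
    rw [h4]
    have h5 : ∀ n ∈ F'.image (fun i => i.1.1), ∑ i ∈ F'.filter (fun i => i.1.1 = n), x i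
        ≤ Real.exp (-(β ^ 2 / 4096)) ^ n := by
      intro n hn
      obtain ⟨i0, hi0, rfl⟩ := Finset.mem_image.1 hn
      have hMn := i0.2.1
      have h6 : ∑ i ∈ F'.filter (fun i => i.1.1 = i0.1.1), x i
          = (#(F'.filter (fun i => i.1.1 = i0.1.1)) : ℝ) * Real.exp (-(β ^ 2 / 2048 * i0.1.1)) := by
        rw [Finset.sum_congr rfl (g := fun _ => Real.exp (-(β ^ 2 / 2048 * i0.1.1)))]
        · rw [Finset.sum_const, nsmul_eq_mul]
        · intro i hi
          simp only [hx, (Finset.mem_filter.1 hi).2]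
      have h7 : #(F'.filter (fun i => i.1.1 = i0.1.1))
          = #((F'.filter (fun i => i.1.1 = i0.1.1)).image (fun i => i.1.2)) := by
        rw [Finset.card_image_of_injOn]
        intro a ha b hb hab
        have e1 := (Finset.mem_filter.1 (Finset.mem_coe.1 ha)).2
        have e2 := (Finset.mem_filter.1 (Finset.mem_coe.1 hb)).2
        apply Subtype.ext
        apply Prod.ext
        · rw [e1, e2]
        · exact hab
      have h8 : (#((F'.filter (fun i => i.1.1 = i0.1.1)).image (fun i => i.1.2)) : ℝ)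
          ≤ Real.exp (β ^ 2 / 8192 * i0.1.1) := by
        apply hcnt i0.1.1 v _ hMn
        intro z hz
        obtain ⟨i, hi, rfl⟩ := Finset.mem_image.1 hz
        obtain ⟨hi1, hi2⟩ := Finset.mem_filter.1 hi
        have hi3 := (Finset.mem_filter.1 hi1).2
        simp only [hX, mem_filter] at hi3
        refine ⟨?_, hi3.2⟩
        have := i.2.2.1
        rw [hi2] at this
        exact this
      rw [h6, h7]
      calc _ ≤ Real.exp (β ^ 2 / 8192 * i0.1.1) * Real.exp (-(β ^ 2 / 2048 * i0.1.1)) :=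
            mul_le_mul_of_nonneg_right h8 (Real.exp_pos _).le
        _ ≤ Real.exp (-(β ^ 2 / 4096)) ^ i0.1.1 := by
            rw [← Real.exp_add, ← Real.exp_nat_mul]
            apply Real.exp_le_exp.2
            have : (0 : ℝ) ≤ i0.1.1 := by positivity
            have h9 : 0 < β ^ 2 := by positivity
            nlinarith [mul_nonneg h9.le this]
    refine (Finset.sum_le_sum h5).trans ?_
    refine (sum_geo _ (Real.exp_pos _).le ?_ M _ ?_).trans h3
    · rw [Real.exp_lt_one_iff]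
      have : 0 < β ^ 2 / 4096 := by positivity
      linarith
    · intro n hn
      obtain ⟨i0, hi0, rfl⟩ := Finset.mem_image.1 hn
      exact i0.2.1

theorem nu_ge_TT {ι : Type} [Fintype ι] (V Z : Finset ι) (g : ι → ℝ) :
    ∑ i ∈ Z ∩ V, |TT (g i)| ≤ nu g Z := by
  unfold nu
  calc _ ≤ ∑ i ∈ Z ∩ V, |g i| ^ (19 / 20 : ℝ) := Finset.sum_le_sum fun i _ => TT_le_rpow _
    _ ≤ _ := Finset.sum_le_sum_of_subset_of_nonneg Finset.inter_subset_left
        fun i _ _ => by positivity

theorem st_sign (hP : ST_PIECE) (hB : ST_BIG) (hR : ST_REC) (hZ : ST_ZC) : ST_SIGN := by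
  intro β hβ hβ1
  obtain ⟨C1, hC1, hP⟩ := hP β hβ hβ1
  obtain ⟨ε, hε, hε1, hR⟩ := hR β C1 hβ hβ1 hC1
  obtain ⟨γ, κ, C, hγ, hγ1, hκ, hκ1, hC, hP⟩ := hP ε hε (hε1.trans (by norm_num))
  obtain ⟨K1, hR⟩ := hR γ C hγ hγ1 hC
  obtain ⟨K2, hZ⟩ := hZ γ κ C hγ hγ1 hκ hκ1 hC
  set K : ℝ := max (max K1 K2) (500 / β) with hK
  have hK1 : K1 ≤ K := (le_max_left _ _).trans (le_max_left _ _)
  have hK2 : K2 ≤ K := (le_max_right _ _).trans (le_max_left _ _)
  have hK3 : 500 / β ≤ K := le_max_right _ _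
  have hKpos : 0 < K := lt_of_lt_of_le (by positivity) hK3
  obtain ⟨η1, L, hη1, hL, hR⟩ := hR K hK1
  obtain ⟨M1, hM1, hZ⟩ := hZ K hK2
  have hb : 0 < β ^ 2 / 4096 := by positivity
  have hq1 : Real.exp (-(β ^ 2 / 4096)) < 1 := by
    rw [Real.exp_lt_one_iff]; linarith
  have hq0 := Real.exp_pos (-(β ^ 2 / 4096))
  -- choice of M
  have ht1 : Filter.Tendsto (fun n : ℕ => Real.exp (-(β ^ 2 / 4096)) ^ n
      / (1 - Real.exp (-(β ^ 2 / 4096)))) Filter.atTop (nhds 0) := by
    have := (tendsto_pow_atTop_nhds_zero_of_lt_one hq0.le hq1).div_const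
      (1 - Real.exp (-(β ^ 2 / 4096)))
    simpa using this
  have ht2 : Filter.Tendsto (fun n : ℕ => Real.exp (-(β ^ 2 / 2048)) ^ n) Filter.atTop (nhds 0) := by
    refine tendsto_pow_atTop_nhds_zero_of_lt_one (Real.exp_pos _).le ?_
    rw [Real.exp_lt_one_iff]
    have : 0 < β ^ 2 / 2048 := by positivity
    linarith
  have he1 := ht1.eventually (gt_mem_nhds (show (0 : ℝ) < β ^ 2 / (4096 * C1) / 2 by positivity))
  have he2 := ht2.eventually (gt_mem_nhds (show (0 : ℝ) < 1 / 2 by norm_num))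
  obtain ⟨M, hMa, hMb, hMc⟩ := (he1.and (he2.and (Filter.eventually_ge_atTop (⌈M1⌉₊ + 1)))).exists
  have hMM1 : M1 ≤ M := by
    have h1 := Nat.le_ceil M1
    have h2 : ((⌈M1⌉₊ + 1 : ℕ) : ℝ) ≤ M := by exact_mod_cast hMc
    push_cast at h2
    linarith
  have hM1' : 1 ≤ M := by omega
  obtain ⟨η2, hη2, hB⟩ := hB C M hC (by exact_mod_cast hM1')
  refine ⟨min η1 η2, L, lt_min hη1 hη2, hL, ?_⟩
  intro ι _ P V hPr hPV
  have hcnt : ∀ (n : ℕ) (v : ι) (F : Finset (ι → ℤ)), M ≤ n →
      (∀ z ∈ F, IsZ P γ κ C n K z ∧ 1 < |fd P K z v|) →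
      (#F : ℝ) ≤ Real.exp (β ^ 2 / 8192 * n) := by
    intro n v F hMn hF
    have h1 := hZ ι P n v F hPr (hMM1.trans (by exact_mod_cast hMn)) hF
    refine h1.trans (Real.exp_le_exp.2 ?_)
    have h2 : 500 ≤ K * β := by
      rw [div_le_iff₀ hβ] at hK3
      exact hK3
    have h3 : 250000 ≤ K ^ 2 * β ^ 2 := by nlinarith
    have h4 : 25 / K ^ 2 ≤ β ^ 2 / 8192 := by
      rw [div_le_div_iff₀ (by positivity) (by norm_num)]
      nlinarith
    calc 25 * (n : ℝ) / K ^ 2 = 25 / K ^ 2 * n := by ring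
      _ ≤ β ^ 2 / 8192 * n := mul_le_mul_of_nonneg_right h4 (by positivity)
  have hh2 : Real.exp (-(β ^ 2 / 2048 * M)) ≤ 1 / 2 := by
    have h1 : Real.exp (-(β ^ 2 / 2048 * M)) = Real.exp (-(β ^ 2 / 2048)) ^ M := by
      rw [← Real.exp_nat_mul]; congr 1; ring
    rw [h1]
    exact hMb.le
  obtain ⟨w, hw⟩ := lll_signs P V γ κ C C1 K β M hC1 hβ hM1' hcnt hh2 hMa.le
  · refine ⟨fun v => sg (w v), fun i => ?_, fun f hf => ?_⟩
    · cases h : w i <;> simp [sg, h]
    · by_contra hbad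
      push Not at hbad
      obtain ⟨g, Z, m, hm, hm0, hmb, hlow, hlink, hnu, hnuM, hD, hct⟩ :=
        hP L ι P V f (fun v => sg (w v)) hL hPr hf (fun i _ => by
          cases h : w i <;> simp [sg, h]) hbad
      have hMm : (M : ℝ) ≤ m := hB ι P V Z g m hPr (fun i hi => (hPV i hi).trans (min_le_right _ _))
        hm hm0 hnu (hD.trans (by nlinarith))
      obtain ⟨z, hz0, hzc, hzX, hzT, hzb⟩ := hR ι P V Z g (fun v => sg (w v)) m hPr
        (fun i hi => (hPV i hi).trans (min_le_left _ _)) (fun i _ => by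
          cases h : w i <;> simp [sg, h]) hm hm0 hmb hlow hnu hnuM hD hct
      set n := ⌈m⌉₊ with hn
      have hn1 : m ≤ n := Nat.le_ceil m
      have hn2 : (n : ℝ) < m + 1 := Nat.ceil_lt_add_one hm0.le
      have hM1r : (1 : ℝ) ≤ M := by exact_mod_cast hM1'
      have hn3 : (n : ℝ) ≤ 2 * m := by linarith
      have hMn : M ≤ n := by
        have : (M : ℝ) ≤ n := hMm.trans hn1
        exact_mod_cast this
      have hpiece : Piece P γ κ C n Z g := by
        refine ⟨hlow, hlink, ?_, ?_, ?_⟩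
        · exact hnu.trans (mul_le_mul_of_nonneg_left hn1 (by linarith))
        · have h1 := nu_ge_TT V Z g
          rw [← hm] at h1
          linarith
        · have h1 : ε * m ≤ 1 * m := mul_le_mul_of_nonneg_right (hε1.trans (by norm_num)) hm0.le
          linarith
      have hIsZ : IsZ P γ κ C n K z := by
        refine ⟨Z, g, hpiece, hz0, hzc.trans ?_⟩
        rw [div_le_div_iff₀ (by positivity) (by positivity)]
        have : 0 < K ^ 100 := by positivity
        nlinarith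
      have h1 := hw ⟨(n, z), hMn, hIsZ, ?_, ?_⟩
      · simp only at h1
        have h2 : β / 16 * (n : ℝ) ≤ β / 8 * m := by nlinarith
        linarith
      · refine hzX.trans ?_
        exact mul_le_mul_of_nonneg_left hn1 (by linarith)
      · refine hzT.trans ?_
        simp only
        linarith

end Pool.Agent.Helper38.ZS
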