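import Pool.Agent.Helper38.ZS.Stmts

/-!
# Counting the samples visible at a point
-/

namespace Pool.Agent.Helper38.ZS

open Finset
open scoped Classical

theorem pr_sq {ι : Type} [Fintype ι] {P : ι → ι → ℝ} (h : IsPr P) (i : ι) :
    ∑ j, P i j ^ 2 = P i i := by
  rw [← h.idem i i]
  refine Finset.sum_congr rfl fun k _ => ?_
  rw [h.symm k i]; ring

theorem pr_diag_nonneg {ι : Type} [Fintype ι] {P : ι → ι → ℝ} (h : IsPr P) (i : ι) :
    0 ≤ P i i := by
  rw [← pr_sq h i]; positivity

theorem pr_diag_le_one {ι : Type} [Fintype ι] {P : ι → ι → ℝ} (h : IsPr P) (i : ι) :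
    P i i ≤ 1 := by
  have h1 : P i i ^ 2 ≤ P i i := by
    conv_rhs => rw [← pr_sq h i]
    exact Finset.single_le_sum (f := fun j => P i j ^ 2) (fun _ _ => by positivity) (mem_univ i)
  by_contra hc
  push Not at hc
  nlinarith

theorem card_large {ι : Type} [Fintype ι] {P : ι → ι → ℝ} (h : IsPr P) (i : ι) (θ : ℝ)
    (hθ : 0 < θ) : (#(univ.filter (fun k => θ ≤ |P i k|)) : ℝ) ≤ 1 / θ ^ 2 := by
  rw [le_div_iff₀ (by positivity)]
  have h1 : (#(univ.filter (fun k => θ ≤ |P i k|)) : ℝ) * θ ^ 2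
      ≤ ∑ k ∈ univ.filter (fun k => θ ≤ |P i k|), P i k ^ 2 := by
    have := Finset.card_nsmul_le_sum (univ.filter (fun k => θ ≤ |P i k|)) (fun k => P i k ^ 2)
      (θ ^ 2) (fun k hk => by
        have h2 := (mem_filter.1 hk).2
        rw [← sq_abs (P i k)]
        exact pow_le_pow_left₀ hθ.le h2 2)
    rw [nsmul_eq_mul] at this
    exact this
  refine h1.trans ?_
  calc _ ≤ ∑ k, P i k ^ 2 := Finset.sum_le_sum_of_subset_of_nonneg (subset_univ _)
        fun _ _ _ => by positivity
    _ = P i i := pr_sq h i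
    _ ≤ 1 := pr_diag_le_one h i

/-- the support of an integer vector -/
noncomputable def spt {ι : Type} [Fintype ι] (z : ι → ℤ) : Finset ι :=
  univ.filter (fun k => z k ≠ 0)

theorem card_spt {ι : Type} [Fintype ι] (z : ι → ℤ) : (#(spt z) : ℝ) ≤ 2 * lc z := by
  have h1 : (#(spt z) : ℝ) * (1 / 2) ≤ ∑ k ∈ spt z, Real.log (1 + |(z k : ℝ)|) := by
    have := Finset.card_nsmul_le_sum (spt z) (fun k => Real.log (1 + |(z k : ℝ)|)) (1 / 2)
      (fun k hk => by
        have h2 : z k ≠ 0 := (mem_filter.1 hk).2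
        have h3 : (1 : ℝ) ≤ |(z k : ℝ)| := by
          have : 1 ≤ |z k| := Int.one_le_abs h2
          exact_mod_cast this
        have h4 : Real.log 2 ≤ Real.log (1 + |(z k : ℝ)|) :=
          Real.log_le_log (by norm_num) (by linarith)
        have h5 := Real.log_two_gt_d9
        linarith)
    rw [nsmul_eq_mul] at this
    exact this
  have h2 : ∑ k ∈ spt z, Real.log (1 + |(z k : ℝ)|) ≤ lc z := by
    unfold lc
    refine Finset.sum_le_sum_of_subset_of_nonneg (subset_univ _) fun k _ _ => ?_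
    exact Real.log_nonneg (by have := abs_nonneg (z k : ℝ); linarith)
  linarith

theorem abs_le_lc {ι : Type} [Fintype ι] (z : ι → ℤ) (k : ι) : |(z k : ℝ)| ≤ Real.exp (lc z) := by
  have h1 : Real.log (1 + |(z k : ℝ)|) ≤ lc z := by
    unfold lc
    exact Finset.single_le_sum (f := fun k => Real.log (1 + |(z k : ℝ)|))
      (fun k _ => Real.log_nonneg (by have := abs_nonneg (z k : ℝ); linarith)) (mem_univ k)
  have h2 : 0 < 1 + |(z k : ℝ)| := by have := abs_nonneg (z k : ℝ); linarith
  have h3 : 1 + |(z k : ℝ)| ≤ Real.exp (lc z) := by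
    rw [← Real.exp_log h2]
    exact Real.exp_le_exp.2 h1
  linarith

theorem st_zc (hC : ST_COUNT) (hZ : ST_ZCNT) : ST_ZC := by
  intro γ κ C hγ hγ1 hκ hκ1 hC1
  obtain ⟨K1, hC⟩ := hC γ κ C hγ hγ1 hκ hκ1 hC1
  refine ⟨max K1 2, fun K hK => ?_⟩
  have hKK1 : K1 ≤ K := (le_max_left _ _).trans hK
  have hK2 : 2 ≤ K := (le_max_right _ _).trans hK
  have hKpos : 0 < K := by linarith
  -- M(K)
  have hev : ∀ᶠ m : ℝ in Filter.atTop, K ^ 400 * m ^ 2 ≤ Real.exp (m / (2 * K ^ 2)) := by
    have hb : 0 < 1 / (2 * K ^ 2) := by positivity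
    have ht := (isLittleO_pow_exp_pos_mul_atTop 2 hb).def
      (show (0 : ℝ) < 1 / K ^ 400 by positivity)
    filter_upwards [ht, Filter.eventually_ge_atTop 0] with m hm hm0
    rw [Real.norm_of_nonneg (by positivity), Real.norm_of_nonneg (by positivity)] at hm
    have h1 : K ^ 400 * m ^ 2 ≤ K ^ 400 * (1 / K ^ 400 * Real.exp (1 / (2 * K ^ 2) * m)) :=
      mul_le_mul_of_nonneg_left hm (by positivity)
    have h2 : K ^ 400 * (1 / K ^ 400 * Real.exp (1 / (2 * K ^ 2) * m))
        = Real.exp (m / (2 * K ^ 2)) := by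
      rw [← mul_assoc, mul_one_div_cancel (by positivity), one_mul]
      congr 1; ring
    rwa [h2] at h1
  obtain ⟨M, hM⟩ := (hev.and (Filter.eventually_ge_atTop 1)).exists_forall_of_atTop
  refine ⟨max M 1, le_max_right _ _, ?_⟩
  intro ι _ P m v F hPr hm hF
  have hmM : M ≤ m := (le_max_left _ _).trans hm
  have hm1 : 1 ≤ m := (le_max_right _ _).trans hm
  have hmM2 := (hM m hmM).1
  -- powers of K
  have hK98 : 1 ≤ K ^ 98 := one_le_pow₀ (by linarith)
  have hK98' : (8 : ℝ) ≤ K ^ 98 := by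
    calc (8 : ℝ) = 2 ^ 3 := by norm_num
      _ ≤ K ^ 3 := pow_le_pow_left₀ (by norm_num) hK2 3
      _ ≤ K ^ 98 := pow_le_pow_right₀ (by linarith) (by norm_num)
  have hKq : m / K ^ 100 ≤ m / K ^ 2 / 8 := by
    rw [div_div, div_le_div_iff₀ (by positivity) (by positivity)]
    have : K ^ 100 = K ^ 2 * K ^ 98 := by ring
    rw [this]
    have h0 : 0 < m * K ^ 2 := by positivity
    nlinarith
  have hlc : ∀ z ∈ F, lc z ≤ m / K ^ 100 / 2 := by
    intro z hz
    obtain ⟨Z, g, hpc, hz0, hlcz⟩ := (hF z hz).1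
    refine hlcz.trans (le_of_eq ?_)
    rw [div_div]; ring
  -- choice of the root
  have hroot : ∀ z ∈ F, ∃ k, z k ≠ 0 ∧
      Real.exp (-(m / K ^ 100)) / (K ^ 200 * m) ≤ |P v k| := by
    intro z hz
    by_contra hcon
    push Not at hcon
    have h1 := (hF z hz).2
    have h2 : |fd P K z v| ≤ ∑ k ∈ spt z, |P v k| * (K ^ 200 * |(z k : ℝ)|) := by
      unfold fd ap
      have e1 : ∑ k, P v k * (K ^ 200 * (z k : ℝ)) = ∑ k ∈ spt z, P v k * (K ^ 200 * (z k : ℝ)) := by
        rw [eq_comm]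
        apply Finset.sum_subset (subset_univ _)
        intro k _ hk
        have : z k = 0 := by
          by_contra h
          exact hk (mem_filter.2 ⟨mem_univ _, h⟩)
        rw [this]; simp
      rw [e1]
      refine (Finset.abs_sum_le_sum_abs _ _).trans (le_of_eq ?_)
      refine Finset.sum_congr rfl fun k _ => ?_
      rw [abs_mul, abs_mul, abs_of_nonneg (show (0 : ℝ) ≤ K ^ 200 by positivity)]
    have h3 : ∀ k ∈ spt z, |P v k| * (K ^ 200 * |(z k : ℝ)|) ≤ 1 / m := by
      intro k hk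
      have h4 := (hcon k (mem_filter.1 hk).2).le
      have h5 : |(z k : ℝ)| ≤ Real.exp (m / K ^ 100) := by
        refine (abs_le_lc z k).trans (Real.exp_le_exp.2 ?_)
        have := hlc z hz
        have h6 : 0 ≤ m / K ^ 100 := by positivity
        linarith
      have hK200 : (0 : ℝ) ≤ K ^ 200 := by positivity
      calc _ ≤ (Real.exp (-(m / K ^ 100)) / (K ^ 200 * m))
            * (K ^ 200 * Real.exp (m / K ^ 100)) :=
            mul_le_mul h4 (mul_le_mul_of_nonneg_left h5 hK200)
              (mul_nonneg hK200 (abs_nonneg _)) (by positivity)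
        _ = 1 / m := by
            rw [Real.exp_neg]
            field_simp
    have h4 : ∑ k ∈ spt z, |P v k| * (K ^ 200 * |(z k : ℝ)|) ≤ #(spt z) * (1 / m) := by
      have := Finset.sum_le_card_nsmul (spt z) (fun k => |P v k| * (K ^ 200 * |(z k : ℝ)|)) _ h3
      rwa [nsmul_eq_mul] at this
    have h5 : (#(spt z) : ℝ) ≤ m := by
      have h6 := card_spt z
      have h7 := hlc z hz
      have h8 : m / K ^ 100 ≤ m := div_le_self (by linarith) (one_le_pow₀ (by linarith))
      linarith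
    have h6 : (#(spt z) : ℝ) * (1 / m) ≤ 1 := by
      rw [mul_one_div, div_le_one (by linarith)]
      exact h5
    linarith
  have : Nonempty ι := ⟨v⟩
  choose! rt hrt0 hrt using hroot
  set θ := Real.exp (-(m / K ^ 100)) / (K ^ 200 * m) with hθ
  have hθpos : 0 < θ := by positivity
  set Rt := univ.filter (fun k => θ ≤ |P v k|) with hRt
  have hRtc : (#Rt : ℝ) ≤ Real.exp (m / K ^ 2) := by
    refine (card_large hPr v θ hθpos).trans ?_
    have h1 : 1 / θ ^ 2 = K ^ 400 * m ^ 2 * Real.exp (2 * (m / K ^ 100)) := by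
      rw [hθ, div_pow, ← Real.exp_nat_mul]
      rw [show ((2 : ℕ) : ℝ) * -(m / K ^ 100) = -(2 * (m / K ^ 100)) by push_cast; ring,
        Real.exp_neg]
      field_simp
    rw [h1]
    calc _ ≤ Real.exp (m / (2 * K ^ 2)) * Real.exp (2 * (m / K ^ 100)) := by gcongr
      _ = Real.exp (m / (2 * K ^ 2) + 2 * (m / K ^ 100)) := by rw [Real.exp_add]
      _ ≤ Real.exp (m / K ^ 2) := by
        apply Real.exp_le_exp.2
        have h2 : m / (2 * K ^ 2) = m / K ^ 2 / 2 := by rw [div_div]; ring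
        have h3 : 0 ≤ m / K ^ 2 := by positivity
        rw [h2]
        linarith
  -- the fibre over a root
  have hfib : ∀ k, (#(F.filter (fun z => rt z = k)) : ℝ)
      ≤ Real.exp (20 * m / K ^ 2) * Real.exp (3 * (m / K ^ 2)) := by
    intro k
    set Fk := F.filter (fun z => rt z = k) with hFk
    have hmem : ∀ z ∈ Fk, spt z ∈ SK P γ κ C m K k := by
      intro z hz
      obtain ⟨hzF, hzk⟩ := mem_filter.1 hz
      obtain ⟨Z, g, hpc, hz0, hlcz⟩ := (hF z hzF).1
      unfold SK
      rw [mem_filter]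
      refine ⟨mem_univ _, Z, g, hpc, ?_, ?_, ?_⟩
      · by_contra h
        have := hz0 k h
        rw [← hzk] at this
        exact hrt0 z hzF this
      · intro x hx
        by_contra h
        exact (mem_filter.1 hx).2 (hz0 x h)
      · have h6 := card_spt z
        have h7 := hlc z hzF
        linarith
    have h1 : (#Fk : ℝ) ≤ ∑ S ∈ SK P γ κ C m K k, (#(Fk.filter (fun z => spt z = S)) : ℝ) := by
      have := Finset.card_eq_sum_card_fiberwise (f := spt) (s := Fk) (t := SK P γ κ C m K k)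
        (fun z hz => hmem z hz)
      rw [this]
      push_cast
      exact le_refl _
    have h2 : ∀ S ∈ SK P γ κ C m K k, (#(Fk.filter (fun z => spt z = S)) : ℝ)
        ≤ Real.exp (3 * (m / K ^ 2)) := by
      intro S hS
      have hScard : (#S : ℝ) ≤ m / K ^ 100 := by
        unfold SK at hS
        rw [mem_filter] at hS
        obtain ⟨_, _, _, _, _, _, h⟩ := hS
        exact h
      have h3 := hZ ι S (m / K ^ 100 / 2) (Fk.filter (fun z => spt z = S)) (by
        intro z hz
        obtain ⟨hz1, hz2⟩ := mem_filter.1 hz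
        refine ⟨?_, hlc z (mem_filter.1 hz1).1⟩
        intro k' hk'
        by_contra h
        apply hk'
        rw [← hz2]
        exact mem_filter.2 ⟨mem_univ _, h⟩)
      refine h3.trans ?_
      have h4 : (4 : ℝ) ^ #S ≤ Real.exp (2 * (m / K ^ 100)) := by
        have h5 : (4 : ℝ) ≤ Real.exp 2 := by
          have := Real.exp_one_gt_d9
          have h6 : Real.exp 2 = Real.exp 1 * Real.exp 1 := by rw [← Real.exp_add]; norm_num
          rw [h6]; nlinarith
        calc (4 : ℝ) ^ #S ≤ (Real.exp 2) ^ #S := pow_le_pow_left₀ (by norm_num) h5 _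
          _ = Real.exp (2 * #S) := by rw [← Real.exp_nat_mul]; congr 1; ring
          _ ≤ _ := Real.exp_le_exp.2 (by linarith)
      calc _ ≤ Real.exp (2 * (m / K ^ 100)) * Real.exp (3 * (m / K ^ 100 / 2)) := by gcongr
        _ = Real.exp (2 * (m / K ^ 100) + 3 * (m / K ^ 100 / 2)) := by rw [Real.exp_add]
        _ ≤ _ := by
          apply Real.exp_le_exp.2
          have h3 : 0 ≤ m / K ^ 2 := by positivity
          linarith
    calc (#Fk : ℝ) ≤ _ := h1
      _ ≤ ∑ S ∈ SK P γ κ C m K k, Real.exp (3 * (m / K ^ 2)) := Finset.sum_le_sum h2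
      _ = #(SK P γ κ C m K k) * Real.exp (3 * (m / K ^ 2)) := by
          rw [Finset.sum_const, nsmul_eq_mul]
      _ ≤ _ := by
          gcongr
          exact hC K hKK1 ι P m k hPr hm1
  have h1 : (#F : ℝ) = ∑ k ∈ Rt, (#(F.filter (fun z => rt z = k)) : ℝ) := by
    have := Finset.card_eq_sum_card_fiberwise (f := rt) (s := F) (t := Rt)
      (fun z hz => by
        simp only [hRt, coe_filter, mem_univ, true_and, Set.mem_setOf_eq]
        exact hrt z hz)
    rw [this]
    push_cast
    rfl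
  rw [h1]
  calc _ ≤ ∑ k ∈ Rt, Real.exp (20 * m / K ^ 2) * Real.exp (3 * (m / K ^ 2)) :=
        Finset.sum_le_sum fun k _ => hfib k
    _ = #Rt * (Real.exp (20 * m / K ^ 2) * Real.exp (3 * (m / K ^ 2))) := by
        rw [Finset.sum_const, nsmul_eq_mul]
    _ ≤ Real.exp (m / K ^ 2) * (Real.exp (20 * m / K ^ 2) * Real.exp (3 * (m / K ^ 2))) := by
        gcongr
    _ = Real.exp (m / K ^ 2 + (20 * m / K ^ 2 + 3 * (m / K ^ 2))) := by
        rw [Real.exp_add, Real.exp_add]
    _ ≤ _ := by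
        apply Real.exp_le_exp.2
        have h3 : 0 ≤ m / K ^ 2 := by positivity
        have h4 : 20 * m / K ^ 2 = 20 * (m / K ^ 2) := by ring
        have h5 : 25 * m / K ^ 2 = 25 * (m / K ^ 2) := by ring
        rw [h4, h5]
        linarith

end Pool.Agent.Helper38.ZS
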