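import Pool.Agent.Helper38.ZS.Stmts

/-!
# Counting integer vectors with a logarithmic cost
-/

namespace Pool.Agent.Helper38.ZS

open Finset
open scoped Classical

/-- weight of an integer -/
noncomputable def wz (n : ℤ) : ℝ := 1 / (1 + |(n : ℝ)|) ^ 3

theorem wz_pos (n : ℤ) : 0 < wz n := by
  unfold wz; positivity

theorem sum_tele (N : ℕ) : ∑ n ∈ range N, 1 / (2 + (n : ℝ)) ^ 3 ≤ 1 - 1 / (1 + (N : ℝ)) := by
  induction N with
  | zero => simp
  | succ N ih =>
    rw [Finset.sum_range_succ]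
    have h1 : 1 / (2 + (N : ℝ)) ^ 3 ≤ 1 / (1 + (N : ℝ)) - 1 / (1 + ((N + 1 : ℕ) : ℝ)) := by
      push_cast
      have h0 : (0 : ℝ) ≤ N := by positivity
      have e : 1 / (1 + (N : ℝ)) - 1 / (1 + ((N : ℝ) + 1)) = 1 / ((1 + (N : ℝ)) * (2 + N)) := by
        field_simp; ring
      rw [e]
      apply one_div_le_one_div_of_le (by positivity)
      nlinarith [mul_nonneg h0 h0, mul_nonneg (mul_nonneg h0 h0) h0]
    linarith

theorem sum_wz (N : ℕ) : ∑ n ∈ Finset.Icc (-(N : ℤ)) N, wz n ≤ 4 := by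
  have h1 : Finset.Icc (-(N : ℤ)) N ⊆ {0} ∪ ((range N).image (fun n : ℕ => ((n : ℤ) + 1))
      ∪ (range N).image (fun n : ℕ => -((n : ℤ) + 1))) := by
    intro x hx
    rw [Finset.mem_Icc] at hx
    simp only [mem_union, mem_singleton, mem_image, mem_range]
    rcases lt_trichotomy x 0 with h | h | h
    · right; right
      exact ⟨(-x - 1).toNat, by omega, by omega⟩
    · left; exact h
    · right; left
      exact ⟨(x - 1).toNat, by omega, by omega⟩
  have e1 : ∑ n ∈ (range N).image (fun n : ℕ => ((n : ℤ) + 1)), wz n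
      = ∑ n ∈ range N, 1 / (2 + (n : ℝ)) ^ 3 := by
    rw [Finset.sum_image (by intro a _ b _ h; simpa using h)]
    refine Finset.sum_congr rfl fun n _ => ?_
    unfold wz
    push_cast
    rw [abs_of_nonneg (by positivity)]
    ring
  have e2 : ∑ n ∈ (range N).image (fun n : ℕ => -((n : ℤ) + 1)), wz n
      = ∑ n ∈ range N, 1 / (2 + (n : ℝ)) ^ 3 := by
    rw [Finset.sum_image (by intro a _ b _ h; simpa using h)]
    refine Finset.sum_congr rfl fun n _ => ?_
    unfold wz
    push_cast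
    rw [abs_neg, abs_of_nonneg (by positivity)]
    ring
  have h2 : ∑ n ∈ Finset.Icc (-(N : ℤ)) N, wz n ≤ ∑ n ∈ ({0} : Finset ℤ), wz n
      + (∑ n ∈ (range N).image (fun n : ℕ => ((n : ℤ) + 1)), wz n
      + ∑ n ∈ (range N).image (fun n : ℕ => -((n : ℤ) + 1)), wz n) := by
    have hnn : ∀ s : Finset ℤ, 0 ≤ ∑ n ∈ s, wz n := fun s =>
      Finset.sum_nonneg fun n _ => (wz_pos n).le
    have hun : ∀ s t : Finset ℤ, ∑ n ∈ s ∪ t, wz n ≤ ∑ n ∈ s, wz n + ∑ n ∈ t, wz n := by
      intro s t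
      have := Finset.sum_union_inter (s₁ := s) (s₂ := t) (f := wz)
      have h := hnn (s ∩ t)
      linarith
    refine (Finset.sum_le_sum_of_subset_of_nonneg h1 fun n _ _ => (wz_pos n).le).trans ?_
    refine (hun _ _).trans ?_
    have := hun ((range N).image (fun n : ℕ => ((n : ℤ) + 1))) ((range N).image (fun n : ℕ => -((n : ℤ) + 1)))
    linarith
  have h3 := sum_tele N
  have h4 : 0 < 1 / (1 + (N : ℝ)) := by positivity
  rw [e1, e2, Finset.sum_singleton] at h2
  have h5 : wz 0 = 1 := by simp [wz]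
  rw [h5] at h2
  linarith

theorem st_zcnt : ST_ZCNT := by
  intro ι _ S B F hF
  -- a common bound for the entries
  set N : ℕ := ∑ z ∈ F, ∑ k, (z k).natAbs with hN
  have hNz : ∀ z ∈ F, ∀ k, (z k) ∈ Finset.Icc (-(N : ℤ)) N := by
    intro z hz k
    have h1 : (z k).natAbs ≤ N := by
      calc (z k).natAbs ≤ ∑ k, (z k).natAbs :=
            Finset.single_le_sum (f := fun k => (z k).natAbs) (fun _ _ => Nat.zero_le _)
              (mem_univ k)
        _ ≤ N := Finset.single_le_sum (f := fun z : ι → ℤ => ∑ k, (z k).natAbs)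
              (fun _ _ => Nat.zero_le _) hz
    rw [Finset.mem_Icc]
    omega
  set bx : ι → Finset ℤ := fun k => if k ∈ S then Finset.Icc (-(N : ℤ)) N else {0} with hbx
  have hsub : F ⊆ Fintype.piFinset bx := by
    intro z hz
    rw [Fintype.mem_piFinset]
    intro k
    simp only [hbx]
    split_ifs with h
    · exact hNz z hz k
    · rw [mem_singleton]; exact (hF z hz).1 k h
  have h1 : ∑ z ∈ F, ∏ k, wz (z k) ≤ ∏ k, ∑ n ∈ bx k, wz n := by
    rw [Finset.prod_univ_sum]
    exact Finset.sum_le_sum_of_subset_of_nonneg hsub fun z _ _ =>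
      Finset.prod_nonneg fun k _ => (wz_pos _).le
  have h2 : ∏ k, ∑ n ∈ bx k, wz n ≤ 4 ^ #S := by
    have h3 : ∏ k, ∑ n ∈ bx k, wz n ≤ ∏ k, (if k ∈ S then (4 : ℝ) else 1) := by
      refine Finset.prod_le_prod (fun k _ => Finset.sum_nonneg fun n _ => (wz_pos n).le)
        fun k _ => ?_
      simp only [hbx]
      split_ifs with h
      · exact sum_wz N
      · simp [wz]
    refine h3.trans (le_of_eq ?_)
    rw [Finset.prod_ite_mem]
    simp
  have h4 : ∀ z ∈ F, Real.exp (-(3 * B)) ≤ ∏ k, wz (z k) := by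
    intro z hz
    have h5 : ∏ k, wz (z k) = Real.exp (-(3 * lc z)) := by
      unfold lc
      rw [Finset.mul_sum, ← Finset.sum_neg_distrib, Real.exp_sum]
      refine Finset.prod_congr rfl fun k _ => ?_
      unfold wz
      have hp : 0 < 1 + |((z k : ℤ) : ℝ)| := by positivity
      rw [Real.exp_neg, show 3 * Real.log (1 + |((z k : ℤ) : ℝ)|)
        = ((3 : ℕ) : ℝ) * Real.log (1 + |((z k : ℤ) : ℝ)|) by norm_num, Real.exp_nat_mul,
        Real.exp_log hp, one_div]
    rw [h5]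
    apply Real.exp_le_exp.2
    have := (hF z hz).2
    linarith
  have h6 : (#F : ℝ) * Real.exp (-(3 * B)) ≤ ∑ z ∈ F, ∏ k, wz (z k) := by
    have := Finset.card_nsmul_le_sum F (fun z => ∏ k, wz (z k)) (Real.exp (-(3 * B))) h4
    rw [nsmul_eq_mul] at this
    exact this
  have h7 : (#F : ℝ) * Real.exp (-(3 * B)) ≤ 4 ^ #S := h6.trans (h1.trans h2)
  have h8 : (#F : ℝ) = (#F : ℝ) * Real.exp (-(3 * B)) * Real.exp (3 * B) := by
    rw [mul_assoc, ← Real.exp_add]; simp
  rw [h8]
  exact mul_le_mul_of_nonneg_right h7 (Real.exp_pos _).le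

end Pool.Agent.Helper38.ZS
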