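import Pool.Agent.Helper38.ZS.ZC

/-!
# Elementary facts on the projection, the defect and the weight
-/

namespace Pool.Agent.Helper38.ZS

open Finset
open scoped Classical

variable {ι : Type}

/-! ## the weight -/

theorem nu_nonneg (g : ι → ℝ) (X : Finset ι) : 0 ≤ nu g X :=
  Finset.sum_nonneg fun i _ => by positivity

theorem l1_nonneg (g : ι → ℝ) (X : Finset ι) : 0 ≤ l1 g X :=
  Finset.sum_nonneg fun i _ => abs_nonneg _

theorem nu_mono (g : ι → ℝ) {X Y : Finset ι} (h : X ⊆ Y) : nu g X ≤ nu g Y :=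
  Finset.sum_le_sum_of_subset_of_nonneg h fun i _ _ => by positivity

theorem l1_mono (g : ι → ℝ) {X Y : Finset ι} (h : X ⊆ Y) : l1 g X ≤ l1 g Y :=
  Finset.sum_le_sum_of_subset_of_nonneg h fun i _ _ => abs_nonneg _

theorem nu_union (g : ι → ℝ) {X Y : Finset ι} (h : Disjoint X Y) :
    nu g (X ∪ Y) = nu g X + nu g Y := Finset.sum_union h

theorem nu_sdiff (g : ι → ℝ) {X Z : Finset ι} (h : X ⊆ Z) :
    nu g X + nu g (Z \ X) = nu g Z := by
  rw [← nu_union g Finset.disjoint_sdiff, Finset.union_sdiff_of_subset h]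

/-- `∑ |g| ≤ ν ^ (20/19)` -/
theorem l1_le_nu (g : ι → ℝ) (X : Finset ι) : l1 g X ≤ (nu g X) ^ (20 / 19 : ℝ) := by
  rcases eq_or_lt_of_le (nu_nonneg g X) with h0 | h0
  · have h1 : ∀ i ∈ X, |g i| ^ (19 / 20 : ℝ) = 0 := by
      intro i hi
      have := (Finset.sum_eq_zero_iff_of_nonneg (fun i _ => by positivity)).1 h0.symm i hi
      exact this
    have h2 : l1 g X = 0 := by
      apply Finset.sum_eq_zero
      intro i hi
      have := h1 i hi
      rw [Real.rpow_eq_zero_iff_of_nonneg (abs_nonneg _)] at this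
      exact this.1
    rw [h2]; exact Real.rpow_nonneg (nu_nonneg g X) _
  · have h1 : ∀ i ∈ X, |g i| ≤ |g i| ^ (19 / 20 : ℝ) * (nu g X) ^ (1 / 19 : ℝ) := by
      intro i hi
      have h2 : |g i| ^ (19 / 20 : ℝ) ≤ nu g X :=
        Finset.single_le_sum (f := fun i => |g i| ^ (19 / 20 : ℝ)) (fun i _ => by positivity) hi
      have h3 : (|g i| ^ (19 / 20 : ℝ)) ^ (1 / 19 : ℝ) ≤ (nu g X) ^ (1 / 19 : ℝ) :=
        Real.rpow_le_rpow (by positivity) h2 (by norm_num)
      have h4 : |g i| = |g i| ^ (19 / 20 : ℝ) * (|g i| ^ (19 / 20 : ℝ)) ^ (1 / 19 : ℝ) := by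
        rw [← Real.rpow_mul (abs_nonneg _)]
        rcases eq_or_lt_of_le (abs_nonneg (g i)) with h5 | h5
        · rw [← h5]; simp
        · rw [← Real.rpow_add h5]
          norm_num
      calc |g i| = _ := h4
        _ ≤ _ := mul_le_mul_of_nonneg_left h3 (by positivity)
    calc l1 g X ≤ ∑ i ∈ X, |g i| ^ (19 / 20 : ℝ) * (nu g X) ^ (1 / 19 : ℝ) := Finset.sum_le_sum h1
      _ = nu g X * (nu g X) ^ (1 / 19 : ℝ) := by rw [← Finset.sum_mul]; rfl
      _ = (nu g X) ^ (20 / 19 : ℝ) := by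
          nth_rewrite 1 [← Real.rpow_one (nu g X)]
          rw [← Real.rpow_add h0]; norm_num

/-- `∑ g² ≤ ν ^ (40/19)` -/
theorem l2_le_nu (g : ι → ℝ) (X : Finset ι) : ∑ i ∈ X, g i ^ 2 ≤ (nu g X) ^ (40 / 19 : ℝ) := by
  have h1 : ∑ i ∈ X, g i ^ 2 ≤ (l1 g X) ^ 2 := by
    have h2 : ∀ i ∈ X, g i ^ 2 ≤ |g i| * l1 g X := by
      intro i hi
      have h3 : |g i| ≤ l1 g X :=
        Finset.single_le_sum (f := fun i => |g i|) (fun i _ => abs_nonneg _) hi
      rw [← sq_abs, pow_two]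
      exact mul_le_mul_of_nonneg_left h3 (abs_nonneg _)
    refine (Finset.sum_le_sum h2).trans (le_of_eq ?_)
    rw [← Finset.sum_mul, pow_two]; rfl
  refine h1.trans ?_
  have h2 := l1_le_nu g X
  calc (l1 g X) ^ 2 ≤ ((nu g X) ^ (20 / 19 : ℝ)) ^ 2 := pow_le_pow_left₀ (l1_nonneg g X) h2 2
    _ = (nu g X) ^ (40 / 19 : ℝ) := by
        rw [← Real.rpow_natCast, ← Real.rpow_mul (nu_nonneg g X)]; norm_num

section low

variable {g : ι → ℝ} {X : Finset ι} {γ : ℝ} (hγ : 0 < γ) (hγ1 : γ ≤ 1) (hlow : ∀ i ∈ X, γ ≤ |g i|)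

include hγ hγ1 hlow

theorem gamma_le_rpow {i : ι} (hi : i ∈ X) : γ ≤ |g i| ^ (19 / 20 : ℝ) := by
  calc γ ≤ γ ^ (19 / 20 : ℝ) := by
        nth_rewrite 1 [← Real.rpow_one γ]
        exact Real.rpow_le_rpow_of_exponent_ge hγ hγ1 (by norm_num)
    _ ≤ |g i| ^ (19 / 20 : ℝ) := Real.rpow_le_rpow hγ.le (hlow i hi) (by norm_num)

theorem card_le_nu : γ * (#X : ℝ) ≤ nu g X := by
  have := Finset.card_nsmul_le_sum X (fun i => |g i| ^ (19 / 20 : ℝ)) γ
    (fun i hi => gamma_le_rpow hγ hγ1 hlow hi)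
  rw [nsmul_eq_mul] at this
  unfold nu
  linarith

theorem gamma_le_nu (hX : X.Nonempty) : γ ≤ nu g X := by
  have h1 := card_le_nu hγ hγ1 hlow
  have h2 : (1 : ℝ) ≤ #X := by exact_mod_cast hX.card_pos
  nlinarith

/-- `ν ≤ ℓ¹ / γ` on a set where `|g| ≥ γ` -/
theorem nu_le_l1 : nu g X ≤ l1 g X / γ := by
  rw [le_div_iff₀ hγ]
  unfold nu l1
  rw [Finset.sum_mul]
  refine Finset.sum_le_sum fun i hi => ?_
  have h1 := hlow i hi
  have h0 : 0 < |g i| := lt_of_lt_of_le hγ h1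
  have h2 : |g i| = |g i| ^ (19 / 20 : ℝ) * |g i| ^ (1 / 20 : ℝ) := by
    rw [← Real.rpow_add h0]; norm_num
  have h3 : γ ≤ |g i| ^ (1 / 20 : ℝ) := by
    calc γ ≤ γ ^ (1 / 20 : ℝ) := by
          nth_rewrite 1 [← Real.rpow_one γ]
          exact Real.rpow_le_rpow_of_exponent_ge hγ hγ1 (by norm_num)
      _ ≤ |g i| ^ (1 / 20 : ℝ) := Real.rpow_le_rpow hγ.le h1 (by norm_num)
  calc |g i| ^ (19 / 20 : ℝ) * γ ≤ |g i| ^ (19 / 20 : ℝ) * |g i| ^ (1 / 20 : ℝ) :=
        mul_le_mul_of_nonneg_left h3 (by positivity)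
    _ = |g i| := h2.symm

end low

/-! ## the projection -/

theorem rs_sum (X : Finset ι) [Fintype ι] (g y : ι → ℝ) :
    ∑ i, rs X g i * y i = ∑ i ∈ X, g i * y i := by
  unfold rs
  simp only [ite_mul, zero_mul]
  rw [Finset.sum_ite_mem]; simp

theorem rs_sq_sum (X : Finset ι) [Fintype ι] (g : ι → ℝ) :
    ∑ i, rs X g i ^ 2 = ∑ i ∈ X, g i ^ 2 := by
  have := rs_sum X g (rs X g)
  have h1 : ∀ i, rs X g i * rs X g i = rs X g i ^ 2 := fun i => by ring
  simp only [h1] at this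
  rw [this]
  refine Finset.sum_congr rfl fun i hi => ?_
  unfold rs; simp only [hi, if_true]; ring

variable [Fintype ι] {P : ι → ι → ℝ}

theorem ap_add (x y : ι → ℝ) (i : ι) : ap P (fun k => x k + y k) i = ap P x i + ap P y i := by
  unfold ap; rw [← Finset.sum_add_distrib]; exact Finset.sum_congr rfl fun k _ => by ring

theorem ap_sub (x y : ι → ℝ) (i : ι) : ap P (fun k => x k - y k) i = ap P x i - ap P y i := by
  unfold ap; rw [← Finset.sum_sub_distrib]; exact Finset.sum_congr rfl fun k _ => by ring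

theorem ap_smul (c : ℝ) (x : ι → ℝ) (i : ι) : ap P (fun k => c * x k) i = c * ap P x i := by
  unfold ap; rw [Finset.mul_sum]; exact Finset.sum_congr rfl fun k _ => by ring

theorem ap_rs (X : Finset ι) (g : ι → ℝ) (i : ι) : ap P (rs X g) i = ∑ k ∈ X, P i k * g k := by
  unfold ap
  have : ∀ k, P i k * rs X g k = rs X g k * P i k := fun k => mul_comm _ _
  simp only [this]
  rw [rs_sum]
  exact Finset.sum_congr rfl fun k _ => mul_comm _ _

theorem ap_ap (h : IsPr P) (x : ι → ℝ) : ap P (ap P x) = ap P x := by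
  funext i
  unfold ap
  simp only [Finset.mul_sum]
  rw [Finset.sum_comm]
  refine Finset.sum_congr rfl fun k _ => ?_
  rw [← h.idem i k, Finset.sum_mul]
  exact Finset.sum_congr rfl fun j _ => by ring

theorem ap_dot (h : IsPr P) (x y : ι → ℝ) : ∑ i, x i * ap P y i = ∑ i, ap P x i * y i := by
  unfold ap
  simp only [Finset.mul_sum, Finset.sum_mul]
  rw [Finset.sum_comm]
  refine Finset.sum_congr rfl fun k _ => Finset.sum_congr rfl fun j _ => ?_
  rw [h.symm k j]; ring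

/-- Pythagoras -/
theorem ap_pyth (h : IsPr P) (x : ι → ℝ) :
    ∑ i, (x i - ap P x i) ^ 2 = ∑ i, x i ^ 2 - ∑ i, x i * ap P x i := by
  have h1 : ∑ i, ap P x i * ap P x i = ∑ i, x i * ap P x i := by
    rw [ap_dot h x x]
    have := ap_dot h (ap P x) x
    rw [ap_ap h] at this
    exact this
  have h2 : ∀ i, (x i - ap P x i) ^ 2 = x i ^ 2 - 2 * (x i * ap P x i) + ap P x i * ap P x i :=
    fun i => by ring
  simp only [h2]
  rw [Finset.sum_add_distrib, Finset.sum_sub_distrib, ← Finset.mul_sum, h1]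
  ring

theorem ap_sq_sum (h : IsPr P) (x : ι → ℝ) : ∑ i, ap P x i ^ 2 = ∑ i, x i * ap P x i := by
  have h1 : ∑ i, ap P x i * ap P x i = ∑ i, x i * ap P x i := by
    rw [ap_dot h x x]
    have := ap_dot h (ap P x) x
    rw [ap_ap h] at this
    exact this
  rw [← h1]
  exact Finset.sum_congr rfl fun i _ => by ring

theorem ap_le (h : IsPr P) (x : ι → ℝ) : ∑ i, ap P x i ^ 2 ≤ ∑ i, x i ^ 2 := by
  have h1 := ap_pyth h x
  have h2 := ap_sq_sum h x
  have h3 : 0 ≤ ∑ i, (x i - ap P x i) ^ 2 := Finset.sum_nonneg fun i _ => by positivity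
  linarith

theorem sub_ap_le (h : IsPr P) (x : ι → ℝ) : ∑ i, (x i - ap P x i) ^ 2 ≤ ∑ i, x i ^ 2 := by
  have h1 := ap_pyth h x
  have h2 := ap_sq_sum h x
  have h3 : 0 ≤ ∑ i, ap P x i ^ 2 := Finset.sum_nonneg fun i _ => by positivity
  linarith

/-- one coordinate -/
theorem ap_coord (h : IsPr P) (x : ι → ℝ) (v : ι) : ap P x v ^ 2 ≤ P v v * ∑ i, x i ^ 2 := by
  rw [← pr_sq h v]
  exact Finset.sum_mul_sq_le_sq_mul_sq univ (fun k => P v k) x

/-! ## defect and interaction -/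

theorem DD_nonneg (P : ι → ι → ℝ) (g : ι → ℝ) (X : Finset ι) : 0 ≤ DD P g X :=
  Finset.sum_nonneg fun i _ => by positivity

omit [Fintype ι] in
theorem II_union_left (g : ι → ℝ) {X Y : Finset ι} (h : Disjoint X Y) (W : Finset ι) :
    II P g (X ∪ Y) W = II P g X W + II P g Y W := Finset.sum_union h

omit [Fintype ι] in
theorem II_union_right (g : ι → ℝ) {X Y : Finset ι} (h : Disjoint X Y) (W : Finset ι) :
    II P g W (X ∪ Y) = II P g W X + II P g W Y := by
  unfold II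
  rw [← Finset.sum_add_distrib]
  exact Finset.sum_congr rfl fun i _ => Finset.sum_union h

theorem II_comm (h : IsPr P) (g : ι → ℝ) (X Y : Finset ι) : II P g X Y = II P g Y X := by
  unfold II
  rw [Finset.sum_comm]
  refine Finset.sum_congr rfl fun i _ => Finset.sum_congr rfl fun j _ => ?_
  rw [h.symm j i]; ring

theorem II_eq_ap (h : IsPr P) (g : ι → ℝ) (B Y : Finset ι) :
    II P g B Y = ∑ l ∈ Y, g l * ap P (rs B g) l := by
  rw [II_comm h]
  unfold II
  refine Finset.sum_congr rfl fun l _ => ?_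
  rw [ap_rs, Finset.mul_sum]
  exact Finset.sum_congr rfl fun k _ => by ring

theorem DD_eq (h : IsPr P) (g : ι → ℝ) (X : Finset ι) :
    DD P g X = ∑ i ∈ X, g i ^ 2 - II P g X X := by
  unfold DD
  rw [ap_pyth h, rs_sq_sum, rs_sum, II_eq_ap h]

theorem DD_union (h : IsPr P) (g : ι → ℝ) {X Y : Finset ι} (hd : Disjoint X Y) :
    DD P g (X ∪ Y) = DD P g X + DD P g Y - 2 * II P g X Y := by
  rw [DD_eq h, DD_eq h, DD_eq h, Finset.sum_union hd, II_union_left g hd, II_union_right g hd,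
    II_union_right g hd, II_comm h g Y X]
  ring

/-- (F3): `DD B = II B (Z - B) + <g_B, u>` with `u = g_Z - P g_Z` -/
theorem DD_sub (h : IsPr P) (g : ι → ℝ) {B Z : Finset ι} (hB : B ⊆ Z) :
    DD P g B = II P g B (Z \ B) + ∑ i ∈ B, g i * (rs Z g i - ap P (rs Z g) i) := by
  have h1 : ∑ i ∈ B, g i * (rs Z g i - ap P (rs Z g) i)
      = ∑ i ∈ B, g i ^ 2 - II P g Z B := by
    rw [II_eq_ap h, ← Finset.sum_sub_distrib]
    refine Finset.sum_congr rfl fun i hi => ?_
    have : rs Z g i = g i := by unfold rs; simp [hB hi]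
    rw [this]; ring
  rw [h1, DD_eq h]
  have h2 : II P g Z B = II P g B B + II P g (Z \ B) B := by
    rw [← II_union_left g Finset.disjoint_sdiff, Finset.union_sdiff_of_subset hB]
  rw [h2, II_comm h g (Z \ B) B]
  ring

/-- off `B` the field of `B` is small in `l2` -/
theorem out_le (h : IsPr P) (g : ι → ℝ) (B Y : Finset ι) (hd : Disjoint Y B) :
    ∑ l ∈ Y, ap P (rs B g) l ^ 2 ≤ DD P g B := by
  unfold DD
  calc _ = ∑ l ∈ Y, (rs B g l - ap P (rs B g) l) ^ 2 := by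
        refine Finset.sum_congr rfl fun l hl => ?_
        have : rs B g l = 0 := by
          unfold rs
          simp [Finset.disjoint_left.1 hd hl]
        rw [this]; ring
    _ ≤ _ := Finset.sum_le_sum_of_subset_of_nonneg (subset_univ _) fun _ _ _ => by positivity

/-- `near ≤ |g_bd| sqrt (DD B)`, squared -/
theorem near_sq_le (h : IsPr P) (K : ℝ) (Z B : Finset ι) (g : ι → ℝ) :
    near P K Z g B ^ 2 ≤ (∑ l ∈ bd P K Z B, g l ^ 2) * DD P g B := by
  unfold near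
  have h1 := Finset.sum_mul_sq_le_sq_mul_sq (bd P K Z B) (fun l => |g l|)
    (fun l => |ap P (rs B g) l|)
  simp only [sq_abs] at h1
  refine h1.trans (mul_le_mul_of_nonneg_left ?_ (Finset.sum_nonneg fun i _ => by positivity))
  apply out_le h
  rw [Finset.disjoint_left]
  intro x hx
  unfold bd at hx
  exact (mem_sdiff.1 (mem_filter.1 hx).1).2

theorem II_le_near (h : IsPr P) (K : ℝ) (Z B : Finset ι) (g : ι → ℝ) :
    |∑ l ∈ bd P K Z B, g l * ap P (rs B g) l| ≤ near P K Z g B := by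
  unfold near
  refine (Finset.abs_sum_le_sum_abs _ _).trans (le_of_eq ?_)
  exact Finset.sum_congr rfl fun l _ => abs_mul _ _

/-- far from `B` the field of `B` is at most `exp (-K) l1 g B` -/
theorem far_le (h : IsPr P) (K : ℝ) (Z B : Finset ι) (g : ι → ℝ) {l : ι} (hl : l ∈ Z)
    (hlB : l ∉ B) (hlb : l ∉ bd P K Z B) : |ap P (rs B g) l| ≤ Real.exp (-K) * l1 g B := by
  rw [ap_rs]
  unfold l1
  rw [Finset.mul_sum]
  refine (Finset.abs_sum_le_sum_abs _ _).trans (Finset.sum_le_sum fun k hk => ?_)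
  rw [abs_mul]
  apply mul_le_mul_of_nonneg_right _ (abs_nonneg _)
  by_contra hc
  push Not at hc
  apply hlb
  unfold bd Adj
  rw [mem_filter, mem_sdiff]
  exact ⟨⟨hl, hlB⟩, k, hk, hc.le⟩

end Pool.Agent.Helper38.ZS
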